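import Pool.Agent.H64.LB.Final

/-!
# Small lemmas on homology
-/

open Topology Set
open Pool.Agent.H59
open scoped TensorProduct unitInterval ContinuousMap

namespace Pool.Agent.H64.LB

/-- homotopy equivalences induce bijections -/
theorem HH_hequiv_bijective (hHM : T_HM) (R : Type) [CommRing R] (q : ℕ) {X Y : Type}
    [TopologicalSpace X] [TopologicalSpace Y] (e : X ≃ₕ Y) :
    Function.Bijective (HH.map R q e.toFun) := by
  have h1 : ∀ z, HH.map R q e.invFun (HH.map R q e.toFun z) = z := by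
    intro z
    rw [← HH.map_comp, hHM R X X _ _ e.left_inv q, HH.map_id]
  have h2 : ∀ z, HH.map R q e.toFun (HH.map R q e.invFun z) = z := by
    intro z
    rw [← HH.map_comp, hHM R Y Y _ _ e.right_inv q, HH.map_id]
  exact ⟨Function.LeftInverse.injective h1, Function.RightInverse.surjective h2⟩

/-- the product of a homotopy equivalence with the identity, forward map prescribed -/
theorem HH_hequiv_prod_bijective (hHM : T_HM) (R : Type) [CommRing R] (q : ℕ) {X Y T : Type}
    [TopologicalSpace X] [TopologicalSpace Y] [TopologicalSpace T] (e : X ≃ₕ Y) :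
    Function.Bijective (HH.map R q (e.toFun.prodMap (ContinuousMap.id T))) :=
  HH_hequiv_bijective hHM R q (e.prodCongr (ContinuousMap.HomotopyEquiv.refl T))

theorem HH_prod_hequiv_bijective (hHM : T_HM) (R : Type) [CommRing R] (q : ℕ) {X Y T : Type}
    [TopologicalSpace X] [TopologicalSpace Y] [TopologicalSpace T] (e : X ≃ₕ Y) :
    Function.Bijective (HH.map R q ((ContinuousMap.id T).prodMap e.toFun)) :=
  HH_hequiv_bijective hHM R q ((ContinuousMap.HomotopyEquiv.refl T).prodCongr e)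

theorem jh (hTE : T_TE) (hPL1 : T_PL1) : T_JH := by
  obtain ⟨hc, e, he⟩ := hPL1
  refine ⟨hc, fun h0 => hTE ?_⟩
  let k : EC × S2 ≃ₜ EC × PN 1 := (Homeomorph.refl EC).prodCongr e
  have hcomp : (VV.toEC.prodMap (⟨QS.line, hc⟩ : C(QS, PN 1))).comp
      ((ContinuousMap.id (VV 1)).prodMap S2.toQS) =
      (k : C(EC × S2, EC × PN 1)).comp (VV.toEC.prodMap (ContinuousMap.id S2)) := by
    ext x
    · rfl
    · exact (he x.2).symm
  ext z
  apply (HH_map_homeo_bijective ℚ 3 k).1
  rw [← HH.map_comp, ← hcomp, HH.map_comp, h0]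
  simp

theorem mul (hOM : T_OM) (hPHAM : T_PHAM) (hQSE : T_QSE) (hHM : T_HM) : T_MUL := by
  obtain ⟨e3, he3⟩ := hPHAM 3
  obtain ⟨e1, he1⟩ := hPHAM 1
  obtain ⟨eq, heq⟩ := hQSE
  have hcomp : (VV.re 3).comp (mulV.comp ((ContinuousMap.id (VV 1)).prodMap S2.toQS)) =
      mulO.comp ((VV.re 1).prodMap (ContinuousMap.id S2)) := by
    ext x
    · rfl
    · rename_i i
      change ((x.1.1.2 0 * (x.2.1 i : ℂ) : ℂ)).re = (x.1.1.2 0).re * x.2.1 i
      simp
  have b3 : Function.Bijective (HH.map ℚ 3 (VV.re 3)) := by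
    rw [← he3]
    exact HH_hequiv_bijective hHM ℚ 3 e3
  have b1 : Function.Bijective (HH.map ℚ 3 ((VV.re 1).prodMap (ContinuousMap.id S2))) := by
    rw [← he1]
    exact HH_hequiv_prod_bijective hHM ℚ 3 e1
  have bq : Function.Bijective (HH.map ℚ 3 ((ContinuousMap.id (VV 1)).prodMap S2.toQS)) := by
    rw [← heq]
    exact HH_prod_hequiv_bijective hHM ℚ 3 eq
  constructor
  · have h1 : (HH.map ℚ 3 (VV.re 3)) ∘ (HH.map ℚ 3 mulV) ∘
        (HH.map ℚ 3 ((ContinuousMap.id (VV 1)).prodMap S2.toQS)) =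
        (HH.map ℚ 3 mulO) ∘ (HH.map ℚ 3 ((VV.re 1).prodMap (ContinuousMap.id S2))) := by
      funext z
      simp only [Function.comp]
      rw [← HH.map_comp, ← HH.map_comp, ← HH.map_comp, ContinuousMap.comp_assoc, hcomp]
    have h2 : Function.Bijective ((HH.map ℚ 3 (VV.re 3)) ∘ (HH.map ℚ 3 mulV) ∘
        (HH.map ℚ 3 ((ContinuousMap.id (VV 1)).prodMap S2.toQS))) := by
      rw [h1]
      exact hOM.1.comp b1
    have h3 : Function.Bijective ((HH.map ℚ 3 mulV) ∘
        (HH.map ℚ 3 ((ContinuousMap.id (VV 1)).prodMap S2.toQS))) :=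
      (Function.Bijective.of_comp_iff' b3 _).1 h2
    exact (Function.Bijective.of_comp_iff _ bq).1 h3
  · rw [← (LinearEquiv.ofBijective _ bq).finrank_eq, (LinearEquiv.ofBijective _ b1).finrank_eq]
    exact hOM.2

end Pool.Agent.H64.LB
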