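import Pool.Agent.H64.LB.Util

/-!
# The module OM: homology of the open models
-/

open Topology Set
open Pool.Agent.H59
open scoped TensorProduct unitInterval ContinuousMap

namespace Pool.Agent.H64.LB

theorem isClosed_tri : IsClosed tri := by
  have h : tri = {a : ℂ | (a ^ 3).im = 0 ∧ (a ^ 3).re ≤ 0} := by
    ext a
    constructor
    · rintro ⟨t, ht, h⟩
      refine ⟨?_, ?_⟩
      · rw [h]; simp
      · rw [h]; simpa using ht
    · rintro ⟨h1, h2⟩
      exact ⟨(a ^ 3).re, h2, Complex.ext rfl (by simpa using h1)⟩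
  rw [h]
  refine IsClosed.inter ?_ ?_
  · exact isClosed_eq (Complex.continuous_im.comp (continuous_id.pow 3)) continuous_const
  · exact isClosed_le (Complex.continuous_re.comp (continuous_id.pow 3)) continuous_const

instance instContrPi (k : ℕ) : ContractibleSpace (Fin k → ℝ) :=
  RealTopologicalVectorSpace.contractibleSpace

/-- the projection `E × T → T` for a contractible space `E` -/
theorem HH_snd_bijective (hHM : T_HM) (R : Type) [CommRing R] (q : ℕ) (E T : Type)
    [TopologicalSpace E] [TopologicalSpace T] [ContractibleSpace E] :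
    Function.Bijective (HH.map R q (ContinuousMap.snd : C(E × T, T))) := by
  obtain ⟨e⟩ := ContractibleSpace.hequiv_unit E
  have b1 := HH_hequiv_prod_bijective hHM R q (T := T) e
  have b2 := HH_map_homeo_bijective R q (Homeomorph.punitProd T)
  have h : (ContinuousMap.snd : C(E × T, T)) =
      (Homeomorph.punitProd T : C(PUnit × T, T)).comp (e.toFun.prodMap (ContinuousMap.id T)) := by
    ext x
    rfl
  have h2 : (HH.map R q (ContinuousMap.snd : C(E × T, T)) : _ → _) =
      (HH.map R q (Homeomorph.punitProd T : C(PUnit × T, T))) ∘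
        (HH.map R q (e.toFun.prodMap (ContinuousMap.id T))) := by
    funext z
    rw [h]
    exact HH.map_comp R q _ _ z
  rw [h2]
  exact b2.comp b1

/-- the map `t ↦ (e, t)` -/
def insE {E T : Type} [TopologicalSpace E] [TopologicalSpace T] (e : E) : C(T, E × T) :=
  (ContinuousMap.const T e).prodMk (ContinuousMap.id T)

theorem snd_insE {E T : Type} [TopologicalSpace E] [TopologicalSpace T] (R : Type) [CommRing R]
    (q : ℕ) (e : E) (z : HH R q T) :
    HH.map R q (ContinuousMap.snd : C(E × T, T)) (HH.map R q (insE e) z) = z := by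
  rw [← HH.map_comp]
  exact HH.map_id R q z

theorem insE_eq (hHM : T_HM) {E T : Type} [TopologicalSpace E] [TopologicalSpace T]
    [ContractibleSpace E] (R : Type) [CommRing R] (q : ℕ) (e e' : E) (z : HH R q T) :
    HH.map R q (insE (T := T) e) z = HH.map R q (insE (T := T) e') z := by
  apply (HH_snd_bijective hHM R q E T).1
  rw [snd_insE, snd_insE]

section model

variable (k : ℕ) (T : Type) [TopologicalSpace T]

/-- the part over the complement of the tripod -/
def UU : Set (OO (k + 1) × T) := {p | p.1.1.1 ∉ tri}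

/-- the part where the vector does not vanish -/
def WW : Set (OO (k + 1) × T) := {p | p.1.1.2 ≠ 0}

theorem UU_open : IsOpen (UU k T) :=
  isClosed_tri.isOpen_compl.preimage
    (continuous_fst.comp (continuous_subtype_val.comp continuous_fst))

theorem WW_open : IsOpen (WW k T) :=
  isOpen_ne.preimage (continuous_snd.comp (continuous_subtype_val.comp continuous_fst))

theorem UU_WW : UU k T ∪ WW k T = univ := by
  ext p
  simp only [UU, WW, mem_union, mem_ofPred_eq, mem_univ, iff_true]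
  by_contra h
  push Not at h
  exact p.1.2 ⟨h.2, h.1⟩

/-- the first set -/
def cU : C3 × ((Fin (k + 1) → ℝ) × T) ≃ₜ ↥(UU k T) where
  toFun p := ⟨(⟨(p.1.1, p.2.1), fun h => p.1.2 h.2⟩, p.2.2), p.1.2⟩
  invFun p := (⟨p.1.1.1.1, p.2⟩, (p.1.1.1.2, p.1.2))
  left_inv _ := rfl
  right_inv _ := rfl
  continuous_toFun := by fun_prop
  continuous_invFun := by fun_prop

/-- the second set -/
def cV : ℂ × (Sph k × T) ≃ₜ ↥(WW k T) where
  toFun p := ⟨(⟨(p.1, p.2.1.1), fun h => p.2.1.2 h.1⟩, p.2.2), p.2.1.2⟩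
  invFun p := (p.1.1.1.1, (⟨p.1.1.1.2, p.2⟩, p.1.2))
  left_inv _ := rfl
  right_inv _ := rfl
  continuous_toFun := by fun_prop
  continuous_invFun := by fun_prop

/-- the intersection -/
def cI : C3 × (Sph k × T) ≃ₜ ↥(UU k T ∩ WW k T) where
  toFun p := ⟨(⟨(p.1.1, p.2.1.1), fun h => p.1.2 h.2⟩, p.2.2), ⟨p.1.2, p.2.1.2⟩⟩
  invFun p := (⟨p.1.1.1.1, p.2.1⟩, (⟨p.1.1.1.2, p.2.2⟩, p.1.2))
  left_inv _ := rfl
  right_inv _ := rfl
  continuous_toFun := by fun_prop
  continuous_invFun := by fun_prop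

/-- the inclusion `Sph k × T → ℝ^(k+1) × T` -/
def iS : C(Sph k × T, (Fin (k + 1) → ℝ) × T) :=
  (⟨Subtype.val, continuous_subtype_val⟩ : C(Sph k, Fin (k + 1) → ℝ)).prodMap (ContinuousMap.id T)

/-- the parametrisation of the homology of the intersection -/
noncomputable def psi (q : ℕ) (d : Fin 3 → HH ℚ q (Sph k × T)) : HH ℚ q ↥(UU k T ∩ WW k T) :=
  HH.map ℚ q (cI k T : C(C3 × (Sph k × T), ↥(UU k T ∩ WW k T)))
    (∑ j, HH.map ℚ q (C3.ins (Sph k × T) j) (d j))

variable {k T}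

theorem psi_bijective (hSEC : T_SEC) (q : ℕ) : Function.Bijective (psi k T q) :=
  (HH_map_homeo_bijective ℚ q (cI k T)).comp (hSEC ℚ (Sph k × T) q)

theorem incL_psi (q : ℕ) (d : Fin 3 → HH ℚ q (Sph k × T)) :
    HH.map ℚ q (incL (UU k T) (WW k T)) (psi k T q d) =
      HH.map ℚ q (cU k T : C(C3 × ((Fin (k + 1) → ℝ) × T), ↥(UU k T)))
        (∑ j, HH.map ℚ q (C3.ins ((Fin (k + 1) → ℝ) × T) j) (HH.map ℚ q (iS k T) (d j))) := by
  rw [psi, ← HH.map_comp, map_sum, map_sum]
  refine Finset.sum_congr rfl (fun j _ => ?_)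
  rw [← HH.map_comp, ← HH.map_comp, ← HH.map_comp]
  rfl

theorem incR_psi (hHM : T_HM) (q : ℕ) (d : Fin 3 → HH ℚ q (Sph k × T)) :
    HH.map ℚ q (incR (UU k T) (WW k T)) (psi k T q d) =
      HH.map ℚ q (cV k T : C(ℂ × (Sph k × T), ↥(WW k T)))
        (HH.map ℚ q (insE (0 : ℂ)) (∑ j, d j)) := by
  rw [psi, ← HH.map_comp, map_sum, map_sum, map_sum]
  refine Finset.sum_congr rfl (fun j _ => ?_)
  rw [insE_eq hHM ℚ q (0 : ℂ) (C3.root j).1, ← HH.map_comp, ← HH.map_comp]
  rfl

theorem snd_iS (q : ℕ) (d : HH ℚ q (Sph k × T)) :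
    HH.map ℚ q (ContinuousMap.snd : C((Fin (k + 1) → ℝ) × T, T)) (HH.map ℚ q (iS k T) d) =
      HH.map ℚ q (ContinuousMap.snd : C(Sph k × T, T)) d := by
  rw [← HH.map_comp]
  rfl

/-- the kernel condition -/
theorem psi_ker (hHM : T_HM) (hSEC : T_SEC) (q : ℕ) (d : Fin 3 → HH ℚ q (Sph k × T)) :
    (HH.map ℚ q (incL (UU k T) (WW k T)) (psi k T q d) = 0 ∧
      HH.map ℚ q (incR (UU k T) (WW k T)) (psi k T q d) = 0) ↔
    (∀ j, HH.map ℚ q (ContinuousMap.snd : C(Sph k × T, T)) (d j) = 0) ∧ ∑ j, d j = 0 := by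
  have b1 := HH_map_homeo_bijective ℚ q (cU k T)
  have b2 := HH_map_homeo_bijective ℚ q (cV k T)
  have b3 := HH_snd_bijective hHM ℚ q (Fin (k + 1) → ℝ) T
  have b4 := hSEC ℚ ((Fin (k + 1) → ℝ) × T) q
  rw [incL_psi, incR_psi hHM]
  refine and_congr ?_ ?_
  · constructor
    · intro h j
      have h1 := b1.1 (h.trans (map_zero _).symm)
      have h2 : (fun j => HH.map ℚ q (iS k T) (d j)) = 0 := by
        apply b4.1
        simpa using h1
      have h3 := congrFun h2 j
      rw [← snd_iS, h3, Pi.zero_apply, map_zero]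
    · intro h
      have h2 : ∀ j, HH.map ℚ q (iS k T) (d j) = 0 := by
        intro j
        apply b3.1
        rw [snd_iS, h j, map_zero]
      simp [h2]
  · constructor
    · intro h
      have h1 := b2.1 (h.trans (map_zero _).symm)
      have h2 := congrArg (HH.map ℚ q (ContinuousMap.snd : C(ℂ × (Sph k × T), Sph k × T))) h1
      rwa [snd_insE, map_zero] at h2
    · intro h
      rw [h, map_zero, map_zero]

theorem HU_zero (hHM : T_HM) (hSEC : T_SEC) (q : ℕ) (hT : Subsingleton (HH ℚ q T)) :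
    Subsingleton (HH ℚ q ↥(UU k T)) := by
  have b1 := HH_map_homeo_bijective ℚ q (cU k T)
  have b3 := HH_snd_bijective hHM ℚ q (Fin (k + 1) → ℝ) T
  have b4 := hSEC ℚ ((Fin (k + 1) → ℝ) × T) q
  have h1 : Subsingleton (HH ℚ q ((Fin (k + 1) → ℝ) × T)) :=
    ⟨fun a b => b3.1 (Subsingleton.elim _ _)⟩
  have h2 : Subsingleton (HH ℚ q (C3 × ((Fin (k + 1) → ℝ) × T))) := b4.2.subsingleton
  exact b1.2.subsingleton

theorem HV_zero (hHM : T_HM) (q : ℕ) (hT : Subsingleton (HH ℚ q (Sph k × T))) :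
    Subsingleton (HH ℚ q ↥(WW k T)) := by
  have b2 := HH_map_homeo_bijective ℚ q (cV k T)
  have b3 := HH_snd_bijective hHM ℚ q ℂ (Sph k × T)
  have h2 : Subsingleton (HH ℚ q (ℂ × (Sph k × T))) := ⟨fun a b => b3.1 (Subsingleton.elim _ _)⟩
  exact b2.2.subsingleton

/-- the boundary map of the model is injective -/
theorem delta_inj (hHM : T_HM) (hSEC : T_SEC) (M : MVTheory ℚ) (q : ℕ)
    (hT : Subsingleton (HH ℚ (q + 1) T)) (hS : Subsingleton (HH ℚ (q + 1) (Sph k × T))) :
    Function.Injective (M.δ (OO (k + 1) × T) (UU k T) (WW k T) q) := by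
  have h1 := HU_zero (k := k) hHM hSEC (q + 1) hT
  have h2 := HV_zero (k := k) (T := T) hHM (q + 1) hS
  rw [injective_iff_map_eq_zero]
  intro z hz
  obtain ⟨a, b, h⟩ := (M.exact_union _ _ _ (UU_open k T) (WW_open k T) (UU_WW k T) q z).2 hz
  rw [h, Subsingleton.elim a 0, Subsingleton.elim b 0, map_zero, map_zero, add_zero]

/-- the image of the boundary map of the model -/
theorem delta_range (hHM : T_HM) (hSEC : T_SEC) (M : MVTheory ℚ) (q : ℕ)
    (d : Fin 3 → HH ℚ q (Sph k × T)) :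
    (∃ z, M.δ (OO (k + 1) × T) (UU k T) (WW k T) q z = psi k T q d) ↔
      (∀ j, HH.map ℚ q (ContinuousMap.snd : C(Sph k × T, T)) (d j) = 0) ∧ ∑ j, d j = 0 := by
  rw [← psi_ker hHM hSEC, M.exact_inter _ _ _ (UU_open k T) (WW_open k T) (UU_WW k T)]

end model

end Pool.Agent.H64.LB
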