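import Mathlib
import Pool.Agent.H59.Small
import Pool.Agent.H59.SC

/-!
# Singular homology with coefficients, elementary API

Conventions of `Pool.Agent.H59.Sing`: `Smp n Y` are the singular simplices with `n` vertices
(dimension `n - 1`; `Smp 0 Y` is a single point, the empty simplex), `Ch R n Y` the chains on them
and `bd R n Y : Ch R (n+1) Y → Ch R n Y` the boundary, so that `bd R 0 Y` is the augmentation.

`HH R q Y` is the usual (unreduced) singular homology in degree `q`, and `Acyc R q Y` says that the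
reduced homology of `Y` vanishes in degree `q`.
-/

open Topology Set
open Pool.Agent.H59

namespace Pool.Agent.H64.LB

noncomputable instance instChGroup (R : Type) [CommRing R] (n : ℕ) (Y : Type)
    [TopologicalSpace Y] : AddCommGroup (Ch R n Y) := Finsupp.instAddCommGroup

section HH

variable (R : Type) [CommRing R]

/-- The unreduced boundary map in degree `q`. -/
noncomputable def dU : (q : ℕ) → (Y : Type) → [TopologicalSpace Y] →
    (Ch R (q + 1) Y →ₗ[R] Ch R q Y)
  | 0, _, _ => 0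
  | (q + 1), Y, _ => bd R (q + 1) Y

theorem dU_zero (Y : Type) [TopologicalSpace Y] : dU R 0 Y = 0 := rfl
theorem dU_succ (q : ℕ) (Y : Type) [TopologicalSpace Y] : dU R (q + 1) Y = bd R (q + 1) Y := rfl

/-- cycles of degree `q` -/
noncomputable def ZZ (q : ℕ) (Y : Type) [TopologicalSpace Y] : Submodule R (Ch R (q + 1) Y) :=
  LinearMap.ker (dU R q Y)

/-- boundaries of degree `q` -/
noncomputable def BB (q : ℕ) (Y : Type) [TopologicalSpace Y] : Submodule R (Ch R (q + 1) Y) :=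
  LinearMap.range (bd R (q + 1) Y)

variable {Y Y' Y'' : Type} [TopologicalSpace Y] [TopologicalSpace Y'] [TopologicalSpace Y'']

theorem mem_ZZ {q : ℕ} {x : Ch R (q + 1) Y} : x ∈ ZZ R q Y ↔ dU R q Y x = 0 := Iff.rfl

theorem mem_ZZ_zero (x : Ch R 1 Y) : x ∈ ZZ R 0 Y := rfl

theorem mem_ZZ_succ {q : ℕ} {x : Ch R (q + 2) Y} : x ∈ ZZ R (q + 1) Y ↔ bd R (q + 1) Y x = 0 :=
  Iff.rfl

theorem mem_BB {q : ℕ} {x : Ch R (q + 1) Y} :
    x ∈ BB R q Y ↔ ∃ y : Ch R (q + 2) Y, bd R (q + 1) Y y = x := Iff.rfl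

theorem BB_le_ZZ (q : ℕ) : BB R q Y ≤ ZZ R q Y := by
  rintro x ⟨y, rfl⟩
  cases q with
  | zero => rfl
  | succ q => exact bd_bd _ y

theorem mem_ZZ_of_bd {q : ℕ} {x : Ch R (q + 1) Y} (h : bd R q Y x = 0) : x ∈ ZZ R q Y := by
  cases q with
  | zero => rfl
  | succ q => exact h

/-- Singular homology of `Y` in degree `q` with coefficients in `R` (unreduced). -/
def HH (q : ℕ) (Y : Type) [TopologicalSpace Y] : Type :=
  ZZ R q Y ⧸ (BB R q Y).submoduleOf (ZZ R q Y)

noncomputable instance (q : ℕ) (Y : Type) [TopologicalSpace Y] : AddCommGroup (HH R q Y) :=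
  inferInstanceAs (AddCommGroup (ZZ R q Y ⧸ (BB R q Y).submoduleOf (ZZ R q Y)))

noncomputable instance (q : ℕ) (Y : Type) [TopologicalSpace Y] : Module R (HH R q Y) :=
  inferInstanceAs (Module R (ZZ R q Y ⧸ (BB R q Y).submoduleOf (ZZ R q Y)))

namespace HH

/-- the class of a cycle -/
noncomputable def mk (q : ℕ) (Y : Type) [TopologicalSpace Y] : ZZ R q Y →ₗ[R] HH R q Y :=
  Submodule.mkQ ((BB R q Y).submoduleOf (ZZ R q Y))

theorem mk_surjective (q : ℕ) : Function.Surjective (mk R q Y) :=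
  Submodule.mkQ_surjective _

theorem mk_eq_zero_iff {q : ℕ} (x : ZZ R q Y) :
    mk R q Y x = 0 ↔ ∃ y : Ch R (q + 2) Y, bd R (q + 1) Y y = x.1 :=
  Submodule.Quotient.mk_eq_zero ((BB R q Y).submoduleOf (ZZ R q Y))

theorem mk_eq_mk_iff {q : ℕ} (x y : ZZ R q Y) :
    mk R q Y x = mk R q Y y ↔ ∃ w : Ch R (q + 2) Y, bd R (q + 1) Y w = x.1 - y.1 := by
  rw [← sub_eq_zero, ← map_sub, mk_eq_zero_iff]
  rfl

theorem ind {q : ℕ} {P : HH R q Y → Prop} (h : ∀ x : ZZ R q Y, P (mk R q Y x)) (z : HH R q Y) :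
    P z := by
  obtain ⟨x, rfl⟩ := mk_surjective R q z
  exact h x

theorem pf_mem_ZZ (f : C(Y, Y')) {q : ℕ} {x : Ch R (q + 1) Y} (hx : x ∈ ZZ R q Y) :
    pf R (q + 1) f x ∈ ZZ R q Y' := by
  cases q with
  | zero => rfl
  | succ q =>
    rw [mem_ZZ_succ] at hx ⊢
    rw [bd_pf, hx, map_zero]

/-- push-forward of cycles -/
noncomputable def mapZ (q : ℕ) (f : C(Y, Y')) : ZZ R q Y →ₗ[R] ZZ R q Y' :=
  (pf R (q + 1) f).restrict (fun _ hx => pf_mem_ZZ R f hx)

@[simp] theorem mapZ_coe (q : ℕ) (f : C(Y, Y')) (x : ZZ R q Y) :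
    (mapZ R q f x : Ch R (q + 1) Y') = pf R (q + 1) f x.1 := rfl

/-- the induced map in homology -/
noncomputable def map (q : ℕ) (f : C(Y, Y')) : HH R q Y →ₗ[R] HH R q Y' :=
  Submodule.mapQ _ _ (mapZ R q f) (by
    rintro ⟨x, hx⟩ ⟨y, hy⟩
    refine ⟨pf R (q + 2) f y, ?_⟩
    change bd R (q + 1) Y' _ = pf R (q + 1) f x
    rw [bd_pf]
    exact congrArg _ hy)

@[simp] theorem map_mk (q : ℕ) (f : C(Y, Y')) (x : ZZ R q Y) :
    map R q f (mk R q Y x) = mk R q Y' (mapZ R q f x) := rfl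

theorem pf_id (n : ℕ) (x : Ch R n Y) : pf R n (ContinuousMap.id Y) x = x := by
  simp only [pf, ContinuousMap.id_comp, Finsupp.lmapDomain_apply]
  exact Finsupp.mapDomain_id

theorem pf_comp (n : ℕ) (f : C(Y, Y')) (g : C(Y', Y'')) (x : Ch R n Y) :
    pf R n (g.comp f) x = pf R n g (pf R n f x) := by
  induction x using Finsupp.induction_linear with
  | zero => simp
  | add u v hu hv => rw [map_add, map_add, map_add, hu, hv]
  | single a r => simp [ContinuousMap.comp_assoc]

@[simp] theorem map_id (q : ℕ) (z : HH R q Y) : map R q (ContinuousMap.id Y) z = z := by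
  induction z using HH.ind with
  | h x =>
    rw [map_mk]
    congr 1
    exact Subtype.ext (pf_id R _ _)

theorem map_comp (q : ℕ) (f : C(Y, Y')) (g : C(Y', Y'')) (z : HH R q Y) :
    map R q (g.comp f) z = map R q g (map R q f z) := by
  induction z using HH.ind with
  | h x =>
    rw [map_mk, map_mk, map_mk]
    congr 1
    exact Subtype.ext (pf_comp R _ _ _ _)

end HH

/-- The reduced homology of `Y` in degree `q` vanishes: every reduced `q`-cycle bounds. -/
def Acyc (q : ℕ) (Y : Type) [TopologicalSpace Y] : Prop :=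
  ∀ z : Ch R (q + 1) Y, bd R q Y z = 0 → ∃ w : Ch R (q + 2) Y, bd R (q + 1) Y w = z

theorem acyc_succ_iff {q : ℕ} : Acyc R (q + 1) Y ↔ Subsingleton (HH R (q + 1) Y) := by
  constructor
  · intro h
    refine subsingleton_of_forall_eq 0 (fun z => ?_)
    induction z using HH.ind with
    | h x =>
      rw [HH.mk_eq_zero_iff]
      exact h x.1 x.2
  · intro h z hz
    have := Subsingleton.elim (HH.mk R (q + 1) Y ⟨z, hz⟩) 0
    rw [HH.mk_eq_zero_iff] at this
    exact this

end HH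

end Pool.Agent.H64.LB
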