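import Pool.Agent.H64.LB.AG

/-!
# Targets of the block L (homology toolkit, hypersurfaces, algebraic geometry, Hodge theory)

Every module proves one of the propositions `T_XX`; other targets may be used as hypotheses.
-/

open Topology Set
open Pool.Agent.H59
open scoped TensorProduct unitInterval ContinuousMap

namespace Pool.Agent.H64.LB

/-! ## Homology toolkit -/

section subsets

variable {X X' : Type} [TopologicalSpace X] [TopologicalSpace X']

/-- the inclusion of a subset -/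
def inc (U : Set X) : C(U, X) := ⟨Subtype.val, continuous_subtype_val⟩

/-- the inclusion of a subset in a larger subset -/
def incS {U V : Set X} (h : U ⊆ V) : C(U, V) := ⟨Set.inclusion h, continuous_inclusion h⟩

/-- the inclusion of an intersection in the first set -/
def incL (U V : Set X) : C(↥(U ∩ V), U) := incS inter_subset_left

/-- the inclusion of an intersection in the second set -/
def incR (U V : Set X) : C(↥(U ∩ V), V) := incS inter_subset_right

/-- the inclusion of the first set in the union -/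
def incUL (U V : Set X) : C(U, ↥(U ∪ V)) := incS subset_union_left

/-- the inclusion of the second set in the union -/
def incUR (U V : Set X) : C(V, ↥(U ∪ V)) := incS subset_union_right

/-- the restriction of a continuous map to subsets -/
def res (f : C(X, X')) {U : Set X} {U' : Set X'} (h : MapsTo f U U') : C(U, U') :=
  ⟨h.restrict f U U', (f.continuous.comp continuous_subtype_val).subtype_mk _⟩

theorem mapsTo_inter {f : C(X, X')} {U V : Set X} {U' V' : Set X'} (hU : MapsTo f U U')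
    (hV : MapsTo f V V') : MapsTo f (U ∩ V) (U' ∩ V') :=
  fun _ hx => ⟨hU hx.1, hV hx.2⟩

theorem mapsTo_union {f : C(X, X')} {U V : Set X} {U' V' : Set X'} (hU : MapsTo f U U')
    (hV : MapsTo f V V') : MapsTo f (U ∪ V) (U' ∪ V') :=
  fun _ hx => hx.elim (fun h => Or.inl (hU h)) (fun h => Or.inr (hV h))

theorem mapsTo_inter' {f : C(X, X')} {U V : Set X} {U' V' : Set X'} (hU : MapsTo f U V')
    (hV : MapsTo f V U') : MapsTo f (U ∩ V) (U' ∩ V') :=
  fun _ hx => ⟨hV hx.2, hU hx.1⟩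

theorem mapsTo_union' {f : C(X, X')} {U V : Set X} {U' V' : Set X'} (hU : MapsTo f U V')
    (hV : MapsTo f V U') : MapsTo f (U ∪ V) (U' ∪ V') :=
  fun _ hx => hx.elim (fun h => Or.inr (hU h)) (fun h => Or.inl (hV h))

end subsets

/-- Homotopic maps: a chain homotopy on the augmented complexes. -/
def T_HI : Prop :=
  ∀ (R : Type) [CommRing R] (X Y : Type) [TopologicalSpace X] [TopologicalSpace Y] (f g : C(X, Y)),
    f.Homotopic g → ∃ P : ∀ n, Ch R n X →ₗ[R] Ch R (n + 1) Y, P 0 = 0 ∧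
      ∀ (n : ℕ) (x : Ch R (n + 1) X), bd R (n + 1) Y (P (n + 1) x) =
        pf R (n + 1) f x - pf R (n + 1) g x - P n (bd R n X x)

/-- Homotopic maps induce the same map in homology. -/
def T_HM : Prop :=
  ∀ (R : Type) [CommRing R] (X Y : Type) [TopologicalSpace X] [TopologicalSpace Y] (f g : C(X, Y)),
    f.Homotopic g → ∀ q, HH.map R q f = HH.map R q g

/-- Small chains: for an open cover `U ∪ V = X` there is a chain operator `S n`, which preserves
the chains supported in a set, is chain homotopic to the identity by an operator `D n` which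
also preserves supports, such that `S n x` is a sum of a chain in `U` and a chain in `V`, for a
given chain `x`. -/
def T_SM : Prop :=
  ∀ (R : Type) [CommRing R] (X : Type) [TopologicalSpace X] (U V : Set X), IsOpen U → IsOpen V →
    U ∪ V = univ → ∀ (n : ℕ) (x : Ch R n X),
      ∃ (S : ∀ m, Ch R m X →ₗ[R] Ch R m X) (D : ∀ m, Ch R m X →ₗ[R] Ch R (m + 1) X),
        (∀ m (y : Ch R (m + 1) X), bd R m X (S (m + 1) y) = S m (bd R m X y)) ∧
        (D 0 = 0 ∧ ∀ m (y : Ch R (m + 1) X), bd R (m + 1) X (D (m + 1) y) =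
          y - S (m + 1) y - D m (bd R m X y)) ∧
        (∀ (W : Set X) m (y : Ch R m W), ∃ y' : Ch R m W, pf R m (inc W) y' =
          S m (pf R m (inc W) y)) ∧
        (∀ (W : Set X) m (y : Ch R m W), ∃ y' : Ch R (m + 1) W, pf R (m + 1) (inc W) y' =
          D m (pf R m (inc W) y)) ∧
        ∃ (a : Ch R n U) (b : Ch R n V), S n x = pf R n (inc U) a + pf R n (inc V) b

/-- Mayer-Vietoris sequences for two open sets covering a space, with a natural boundary map. -/
structure MVTheory (R : Type) [CommRing R] where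
  /-- the boundary map -/
  δ : ∀ (X : Type) [TopologicalSpace X] (U V : Set X) (q : ℕ),
    HH R (q + 1) X →ₗ[R] HH R q ↥(U ∩ V)
  exact_inter : ∀ (X : Type) [TopologicalSpace X] (U V : Set X), IsOpen U → IsOpen V →
    U ∪ V = univ → ∀ (q : ℕ) (w : HH R q ↥(U ∩ V)),
      (HH.map R q (incL U V) w = 0 ∧ HH.map R q (incR U V) w = 0) ↔ ∃ z, δ X U V q z = w
  exact_union : ∀ (X : Type) [TopologicalSpace X] (U V : Set X), IsOpen U → IsOpen V →
    U ∪ V = univ → ∀ (q : ℕ) (z : HH R (q + 1) X),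
      (∃ a b, z = HH.map R (q + 1) (inc U) a + HH.map R (q + 1) (inc V) b) ↔ δ X U V q z = 0
  exact_sum : ∀ (X : Type) [TopologicalSpace X] (U V : Set X), IsOpen U → IsOpen V →
    U ∪ V = univ → ∀ (q : ℕ) (a : HH R q U) (b : HH R q V),
      HH.map R q (inc U) a + HH.map R q (inc V) b = 0 ↔
        ∃ w, a = HH.map R q (incL U V) w ∧ b = - HH.map R q (incR U V) w
  surj_zero : ∀ (X : Type) [TopologicalSpace X] (U V : Set X), IsOpen U → IsOpen V →
    U ∪ V = univ → ∀ z : HH R 0 X, ∃ a b, z = HH.map R 0 (inc U) a + HH.map R 0 (inc V) b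
  natural : ∀ (X X' : Type) [TopologicalSpace X] [TopologicalSpace X'] (U V : Set X)
    (U' V' : Set X'), IsOpen U → IsOpen V → U ∪ V = univ → IsOpen U' → IsOpen V' →
    U' ∪ V' = univ → ∀ (f : C(X, X')) (hU : MapsTo f U U') (hV : MapsTo f V V') (q : ℕ)
    (z : HH R (q + 1) X), δ X' U' V' q (HH.map R (q + 1) f z) =
      HH.map R q (res f (mapsTo_inter hU hV)) (δ X U V q z)
  anti : ∀ (X X' : Type) [TopologicalSpace X] [TopologicalSpace X'] (U V : Set X)
    (U' V' : Set X'), IsOpen U → IsOpen V → U ∪ V = univ → IsOpen U' → IsOpen V' →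
    U' ∪ V' = univ → ∀ (f : C(X, X')) (hU : MapsTo f U V') (hV : MapsTo f V U') (q : ℕ)
    (z : HH R (q + 1) X), δ X' U' V' q (HH.map R (q + 1) f z) =
      - HH.map R q (res f (mapsTo_inter' hU hV)) (δ X U V q z)

def T_MV : Prop := ∀ (R : Type) [CommRing R], Nonempty (MVTheory R)

/-- Mayer-Vietoris sequences for two open subsets of an ambient space. -/
structure MVSub (R : Type) [CommRing R] where
  /-- the boundary map -/
  δ : ∀ (X : Type) [TopologicalSpace X] (U V : Set X) (q : ℕ),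
    HH R (q + 1) ↥(U ∪ V) →ₗ[R] HH R q ↥(U ∩ V)
  exact_inter : ∀ (X : Type) [TopologicalSpace X] (U V : Set X), IsOpen U → IsOpen V →
    ∀ (q : ℕ) (w : HH R q ↥(U ∩ V)),
      (HH.map R q (incL U V) w = 0 ∧ HH.map R q (incR U V) w = 0) ↔ ∃ z, δ X U V q z = w
  exact_union : ∀ (X : Type) [TopologicalSpace X] (U V : Set X), IsOpen U → IsOpen V →
    ∀ (q : ℕ) (z : HH R (q + 1) ↥(U ∪ V)),
      (∃ a b, z = HH.map R (q + 1) (incUL U V) a + HH.map R (q + 1) (incUR U V) b) ↔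
        δ X U V q z = 0
  exact_sum : ∀ (X : Type) [TopologicalSpace X] (U V : Set X), IsOpen U → IsOpen V →
    ∀ (q : ℕ) (a : HH R q U) (b : HH R q V),
      HH.map R q (incUL U V) a + HH.map R q (incUR U V) b = 0 ↔
        ∃ w, a = HH.map R q (incL U V) w ∧ b = - HH.map R q (incR U V) w
  surj_zero : ∀ (X : Type) [TopologicalSpace X] (U V : Set X), IsOpen U → IsOpen V →
    ∀ z : HH R 0 ↥(U ∪ V), ∃ a b, z = HH.map R 0 (incUL U V) a + HH.map R 0 (incUR U V) b
  natural : ∀ (X X' : Type) [TopologicalSpace X] [TopologicalSpace X'] (U V : Set X)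
    (U' V' : Set X'), IsOpen U → IsOpen V → IsOpen U' → IsOpen V' →
    ∀ (f : C(X, X')) (hU : MapsTo f U U') (hV : MapsTo f V V') (q : ℕ)
    (z : HH R (q + 1) ↥(U ∪ V)),
      δ X' U' V' q (HH.map R (q + 1) (res f (mapsTo_union hU hV)) z) =
        HH.map R q (res f (mapsTo_inter hU hV)) (δ X U V q z)
  anti : ∀ (X X' : Type) [TopologicalSpace X] [TopologicalSpace X'] (U V : Set X)
    (U' V' : Set X'), IsOpen U → IsOpen V → IsOpen U' → IsOpen V' →
    ∀ (f : C(X, X')) (hU : MapsTo f U V') (hV : MapsTo f V U') (q : ℕ)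
    (z : HH R (q + 1) ↥(U ∪ V)),
      δ X' U' V' q (HH.map R (q + 1) (res f (mapsTo_union' hU hV)) z) =
        - HH.map R q (res f (mapsTo_inter' hU hV)) (δ X U V q z)

def T_MVS : Prop := ∀ (R : Type) [CommRing R], Nonempty (MVSub R)

/-- Compact supports: homology commutes with directed unions of open sets. -/
def T_CS : Prop :=
  ∀ (R : Type) [CommRing R] (X : Type) [TopologicalSpace X] (F : Set (Set X)),
    (∀ U ∈ F, IsOpen U) → F.Nonempty → DirectedOn (· ⊆ ·) F → ∀ q : ℕ,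
      (∀ z : HH R q ↥(⋃₀ F), ∃ (U : Set X) (hU : U ∈ F) (z' : HH R q U),
        HH.map R q (incS (subset_sUnion_of_mem hU)) z' = z) ∧
      (∀ (U : Set X) (hU : U ∈ F) (z : HH R q U),
        HH.map R q (incS (subset_sUnion_of_mem hU)) z = 0 →
          ∃ V ∈ F, ∃ h : U ⊆ V, HH.map R q (incS h) z = 0)

/-- the class of a point in `H_0` -/
noncomputable def HH.point (R : Type) [CommRing R] {Y : Type} [TopologicalSpace Y] (y : Y) :
    HH R 0 Y :=
  HH.mk R 0 Y ⟨Finsupp.single (ContinuousMap.const _ y) 1, rfl⟩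

/-- Discrete spaces and `H_0`. -/
def T_DI : Prop :=
  ∀ (R : Type) [CommRing R] (Y : Type) [TopologicalSpace Y],
    (DiscreteTopology Y → ∀ q, Subsingleton (HH R (q + 1) Y)) ∧
    Submodule.span R (range (HH.point R : Y → HH R 0 Y)) = ⊤ ∧
    (∀ y y' : Y, Joined y y' → HH.point R y = HH.point R y') ∧
    (∀ f : Y → R, IsLocallyConstant f → ∃ φ : HH R 0 Y →ₗ[R] R, ∀ y, φ (HH.point R y) = f y) ∧
    (∀ (Y' : Type) [TopologicalSpace Y'] (f : C(Y, Y')) (y : Y),
      HH.map R 0 f (HH.point R y) = HH.point R (f y))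

/-- Homology of contractible spaces. -/
def T_CON : Prop :=
  ∀ (R : Type) [CommRing R] (Y : Type) [TopologicalSpace Y] [ContractibleSpace Y] (q : ℕ),
    Subsingleton (HH R (q + 1) Y)

/-- The augmentation `H_0(Y) → R`: natural, one on points, bijective for path connected `Y`. -/
def T_H0 : Prop :=
  ∀ (R : Type) [CommRing R], ∃ ε : ∀ (Y : Type) [TopologicalSpace Y], HH R 0 Y →ₗ[R] R,
    (∀ (Y : Type) [TopologicalSpace Y] (y : Y), ε Y (HH.point R y) = 1) ∧
    (∀ (Y Y' : Type) [TopologicalSpace Y] [TopologicalSpace Y'] (f : C(Y, Y')) (z : HH R 0 Y),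
      ε Y' (HH.map R 0 f z) = ε Y z) ∧
    (∀ (Y : Type) [TopologicalSpace Y] [PathConnectedSpace Y], Function.Bijective (ε Y))

/-- Homology of a disjoint union of two open sets. -/
def T_DU : Prop :=
  ∀ (R : Type) [CommRing R] (X : Type) [TopologicalSpace X] (U V : Set X), IsOpen U → IsOpen V →
    U ∪ V = univ → U ∩ V = ∅ → ∀ q, Function.Bijective
      (fun p : HH R q U × HH R q V => HH.map R q (inc U) p.1 + HH.map R q (inc V) p.2)

/-- the tripod `a^3 ∈ (-∞, 0]` -/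
def tri : Set ℂ := {a | ∃ t : ℝ, t ≤ 0 ∧ a ^ 3 = (t : ℂ)}

/-- the complement of the tripod -/
abbrev C3 : Type := {a : ℂ // ¬ ∃ t : ℝ, t ≤ 0 ∧ a ^ 3 = (t : ℂ)}

/-- the cube roots of unity, as points of `C3` -/
noncomputable def C3.root (j : Fin 3) : C3 :=
  ⟨Complex.exp (2 * Real.pi * Complex.I * (j : ℕ) / 3), by
    rintro ⟨t, ht, h⟩
    rw [← Complex.exp_nat_mul] at h
    have h1 : ((3 : ℕ) : ℂ) * (2 * Real.pi * Complex.I * (j : ℕ) / 3) =
        ((j : ℕ) : ℂ) * (2 * Real.pi * Complex.I) := by push_cast; ring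
    rw [h1, Complex.exp_nat_mul_two_pi_mul_I] at h
    have : (1 : ℝ) = t := by exact_mod_cast h
    linarith⟩

/-- The complement of the tripod is the disjoint union of three open convex cones. -/
def T_TRI : Prop :=
  ∃ S : Fin 3 → Set ℂ, (∀ j, IsOpen (S j)) ∧ (∀ j, Convex ℝ (S j)) ∧
    (∀ i j, i ≠ j → Disjoint (S i) (S j)) ∧ (∀ j, (C3.root j).1 ∈ S j) ∧
    (∀ a, a ∉ tri ↔ ∃ j, a ∈ S j) ∧
    (∀ j, ∀ a ∈ S j, ∀ r : ℝ, 0 < r → (r : ℂ) * a ∈ S j) ∧ IsClosed tri

/-- the map `t ↦ (ζ_j, t)` -/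
noncomputable def C3.ins (T : Type) [TopologicalSpace T] (j : Fin 3) : C(T, C3 × T) :=
  (ContinuousMap.const T (C3.root j)).prodMk (ContinuousMap.id T)

/-- Homology of `C3 × T`: `C3` consists of three convex sectors. -/
def T_SEC : Prop :=
  ∀ (R : Type) [CommRing R] (T : Type) [TopologicalSpace T] (q : ℕ), Function.Bijective
    (fun c : Fin 3 → HH R q T => ∑ j, HH.map R q (C3.ins T j) (c j))

/-- `ℝ^(k+1)` minus the origin -/
abbrev Sph (k : ℕ) : Type := {x : Fin (k + 1) → ℝ // x ≠ 0}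

/-- the reflection in the `j`-th coordinate -/
def Sph.refl (k : ℕ) (j : Fin (k + 1)) : C(Sph k, Sph k) where
  toFun x := ⟨fun i => if i = j then - x.1 i else x.1 i, by
    intro h
    apply x.2
    funext i
    have := congrFun h i
    by_cases hi : i = j
    · simpa [hi] using this
    · simpa [hi] using this⟩
  continuous_toFun := by
    refine Continuous.subtype_mk ?_ _
    refine continuous_pi (fun i => ?_)
    by_cases hi : i = j
    · simp only [hi, if_true]
      exact ((continuous_apply j).comp continuous_subtype_val).neg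
    · simp only [hi, if_false]
      exact (continuous_apply i).comp continuous_subtype_val

/-- the kernel of `H_q((ℝ^(k+1) ∖ 0) × T) → H_q(T)` -/
noncomputable def KK (R : Type) [CommRing R] (k q : ℕ) (T : Type) [TopologicalSpace T] :
    Submodule R (HH R q (Sph k × T)) :=
  LinearMap.ker (HH.map R q (ContinuousMap.snd : C(Sph k × T, T)))

/-- The case `k = 0`: `ℝ ∖ 0` has two contractible components. -/
def T_SU0 : Prop :=
  ∀ (R : Type) [CommRing R], ∃ κ : ∀ (q : ℕ) (T : Type) [TopologicalSpace T],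
    KK R 0 q T ≃ₗ[R] HH R q T,
    (∀ (q : ℕ) (T T' : Type) [TopologicalSpace T] [TopologicalSpace T'] (g : C(T, T'))
      (z : KK R 0 q T) (z' : KK R 0 q T'),
      z'.1 = HH.map R q ((ContinuousMap.id (Sph 0)).prodMap g) z.1 →
        κ q T' z' = HH.map R q g (κ q T z)) ∧
    (∀ (q : ℕ) (T : Type) [TopologicalSpace T], ∀ z ∈ KK R 0 q T,
      HH.map R q ((Sph.refl 0 0).prodMap (ContinuousMap.id T)) z = - z)

/-- The step `k → k + 1`, by the Mayer-Vietoris sequence. -/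
def T_SU1 : Prop :=
  ∀ (R : Type) [CommRing R] (k : ℕ), ∃ sg₁ : ∀ (n : ℕ) (T : Type) [TopologicalSpace T],
    KK R (k + 1) (n + 1) T ≃ₗ[R] KK R k n T,
    (∀ (n : ℕ) (T T' : Type) [TopologicalSpace T] [TopologicalSpace T'] (g : C(T, T'))
      (z : KK R (k + 1) (n + 1) T) (z' : KK R (k + 1) (n + 1) T'),
      z'.1 = HH.map R (n + 1) ((ContinuousMap.id (Sph (k + 1))).prodMap g) z.1 →
        (sg₁ n T' z').1 = HH.map R n ((ContinuousMap.id (Sph k)).prodMap g) (sg₁ n T z).1) ∧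
    (∀ (n : ℕ) (T : Type) [TopologicalSpace T] (j : Fin (k + 1)) (z z' : KK R (k + 1) (n + 1) T),
      z'.1 = HH.map R (n + 1) ((Sph.refl (k + 1) j.castSucc).prodMap (ContinuousMap.id T)) z.1 →
        (sg₁ n T z').1 = HH.map R n ((Sph.refl k j).prodMap (ContinuousMap.id T)) (sg₁ n T z).1) ∧
    (∀ (n : ℕ) (T : Type) [TopologicalSpace T], ∀ z ∈ KK R (k + 1) (n + 1) T,
      HH.map R (n + 1) ((Sph.refl (k + 1) (Fin.last (k + 1))).prodMap (ContinuousMap.id T)) z =
        - z) ∧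
    (∀ (T : Type) [TopologicalSpace T], KK R (k + 1) 0 T = ⊥)

/-- Homology of `(ℝ^(k+1) ∖ 0) × T`, natural in `T`; reflections act by `-1` on the kernel. -/
structure SuspTheory (R : Type) [CommRing R] where
  κ : ∀ (k q : ℕ) (T : Type) [TopologicalSpace T], KK R k (q + k) T ≃ₗ[R] HH R q T
  natural : ∀ (k q : ℕ) (T T' : Type) [TopologicalSpace T] [TopologicalSpace T'] (g : C(T, T'))
    (z : KK R k (q + k) T) (z' : KK R k (q + k) T'),
    z'.1 = HH.map R (q + k) ((ContinuousMap.id (Sph k)).prodMap g) z.1 →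
      κ k q T' z' = HH.map R q g (κ k q T z)
  refl : ∀ (k q : ℕ) (T : Type) [TopologicalSpace T] (j : Fin (k + 1)),
    ∀ z ∈ KK R k q T,
      HH.map R q ((Sph.refl k j).prodMap (ContinuousMap.id T)) z = - z
  low : ∀ (k q : ℕ) (T : Type) [TopologicalSpace T], q < k → KK R k q T = ⊥

def T_SUSP : Prop := ∀ (R : Type) [CommRing R], Nonempty (SuspTheory R)

/-- the antipodal map of `S2` -/
def S2.anti : C(S2, S2) where
  toFun x := ⟨fun i => - x.1 i, by simpa using x.2⟩
  continuous_toFun := by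
    refine Continuous.subtype_mk ?_ _
    exact continuous_pi (fun i => ((continuous_apply i).comp continuous_subtype_val).neg)

theorem S2.ne_zero (x : S2) : x.1 ≠ 0 := by
  intro h
  have := x.2
  rw [h] at this
  simp at this

/-- the inclusion of the unit sphere in `ℝ^3 ∖ 0` -/
def S2.toSph : C(S2, Sph 2) where
  toFun x := ⟨x.1, x.ne_zero⟩
  continuous_toFun := Continuous.subtype_mk continuous_subtype_val S2.ne_zero

/-- The unit sphere is a deformation retract of `ℝ^3 ∖ 0`. -/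
def T_S2E : Prop := ∃ e : S2 ≃ₕ Sph 2, e.toFun = S2.toSph

/-- Homology of the two-sphere. -/
def T_S2H : Prop :=
  ∀ (R : Type) [CommRing R], Nonempty (HH R 2 S2 ≃ₗ[R] R) ∧
    Subsingleton (HH R 1 S2) ∧ (∀ q, Subsingleton (HH R (q + 3) S2)) ∧
    ∀ z : HH R 2 S2, HH.map R 2 S2.anti z = - z

/-! ## Hypersurfaces and their models -/

/-- A continuous cube root of `(1 - s) a^3 + s r`. -/
def T_CUB : Prop :=
  ∃ f : ℂ → ℝ → ℝ → ℂ,
    ContinuousOn (fun p : ℂ × ℝ × ℝ => f p.1 p.2.1 p.2.2)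
      {p | 0 ≤ p.2.1 ∧ p.2.2 ∈ Icc (0 : ℝ) 1 ∧ (p.1 ∈ tri → p.2.1 = 0)} ∧
    (∀ (a : ℂ) (r s : ℝ), 0 ≤ r → s ∈ Icc (0 : ℝ) 1 → (a ∈ tri → r = 0) →
      f a r s ^ 3 = (1 - s) * a ^ 3 + s * r) ∧
    (∀ (a : ℂ) (r : ℝ), 0 ≤ r → (a ∈ tri → r = 0) → f a r 0 = a) ∧
    (∀ (a : ℂ) (r s : ℝ), 0 < r → s ∈ Icc (0 : ℝ) 1 → a ∉ tri →
      (1 - s) * a + s * f a r 1 ∉ tri)

/-- the Euclidean norm -/
noncomputable def en {n : ℕ} (x : Fin n → ℝ) : ℝ := Real.sqrt (∑ i, x i ^ 2)

/-- Complex vectors with prescribed square, real part parallel to `x` and imaginary part parallel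
to `y`. -/
def T_ZED : Prop :=
  ∀ n : ℕ, ∃ Z : (Fin n → ℝ) → (Fin n → ℝ) → ℝ → ℝ → (Fin n → ℂ),
    ContinuousOn (fun p : (Fin n → ℝ) × (Fin n → ℝ) × ℝ × ℝ => Z p.1 p.2.1 p.2.2.1 p.2.2.2)
      {p | 0 ≤ p.2.2.2 ∧ (p.1 = 0 → p.2.2.1 ≤ 0) ∧ (p.2.1 = 0 → 0 ≤ p.2.2.1)} ∧
    (∀ (x y : Fin n → ℝ) (ρ μ : ℝ), 0 ≤ μ → (x = 0 → ρ ≤ 0) → (y = 0 → 0 ≤ ρ) →
      ∑ i, Z x y ρ μ i ^ 2 = ρ + 2 * μ * (∑ i, (x i : ℂ) * y i) * Complex.I) ∧
    (∀ x y : Fin n → ℝ, Z x y (en x ^ 2 - en y ^ 2) 1 = fun i => (x i : ℂ) + y i * Complex.I) ∧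
    (∀ (x y : Fin n → ℝ) (ρ : ℝ), 0 ≤ ρ → (x = 0 → ρ = 0) →
      Z x y ρ 0 = fun i => ((Real.sqrt ρ / en x * x i : ℝ) : ℂ))

/-- Pham's theorem, explicit: `VV n → OO n`, `(a, z) ↦ (a, Re z)` is a homotopy equivalence. -/
def T_PHAM : Prop := ∀ n : ℕ, ∃ e : VV n ≃ₕ OO n, e.toFun = VV.re n

/-- The real sphere in the complex quadric. -/
def T_QSE : Prop := ∃ e : S2 ≃ₕ QS, e.toFun = S2.toQS

/-- Projective spaces are compact Hausdorff spaces. -/
def T_PNT : Prop := ∀ n : ℕ, CompactSpace (PN n) ∧ T2Space (PN n)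

/-- The eigenline map is continuous and identifies `S2` with the projective line. -/
def T_PL1 : Prop :=
  Continuous QS.line ∧ ∃ e : S2 ≃ₜ PN 1, ∀ x : S2, e x = QS.line (S2.toQS x)

/-- The affine part and a neighbourhood of the point at infinity of the elliptic curve. -/
def T_INF : Prop :=
  IsOpenEmbedding VV.toEC ∧ ∃ W : Set EC, IsOpen W ∧ range VV.toEC ∪ W = univ ∧
    ContractibleSpace W ∧ Nonempty (Sph 1 ≃ₕ ↥(range VV.toEC ∩ W))

/-- The map `mulO` is bijective on `H_3`, which is two-dimensional. -/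
def T_OM : Prop :=
  Function.Bijective (HH.map ℚ 3 mulO) ∧ Module.finrank ℚ (HH ℚ 3 (OO 1 × S2)) = 2

/-- The inclusion `VV 1 × S2 → EC × S2` is not zero on `H_3`. -/
def T_TE : Prop := HH.map ℚ 3 (VV.toEC.prodMap (ContinuousMap.id S2)) ≠ 0

/-- The morphism `VV 1 × QS → VV 3` is bijective on `H_3`, which is two-dimensional. -/
def T_MUL : Prop :=
  Function.Bijective (HH.map ℚ 3 mulV) ∧ Module.finrank ℚ (HH ℚ 3 (VV 1 × QS)) = 2

/-- The morphism `VV 1 × QS → EC × PN 1` is not zero on `H_3`. -/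
def T_JH : Prop :=
  ∃ h : Continuous QS.line, HH.map ℚ 3 (VV.toEC.prodMap (⟨QS.line, h⟩ : C(QS, PN 1))) ≠ 0

/-- The union of two simply connected open sets with path connected intersection. -/
def T_VK : Prop :=
  ∀ (X : Type) [TopologicalSpace X] (U V : Set X), IsOpen U → IsOpen V → U ∪ V = univ →
    SimplyConnectedSpace U → SimplyConnectedSpace V → PathConnectedSpace ↥(U ∩ V) →
    SimplyConnectedSpace X

/-- `ℝ^(k+1) ∖ 0`, `k ≥ 2`, is simply connected. -/
def T_SCS : Prop := ∀ k : ℕ, 2 ≤ k → SimplyConnectedSpace (Sph k)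

/-- The open model `OO 3` is simply connected. -/
def T_SCO : Prop := SimplyConnectedSpace (OO 3)

/-- Paths lift through the orbit map of a finite group acting on a Hausdorff space. -/
def T_PLG : Prop :=
  ∀ (G X Q : Type) [Group G] [Finite G] [TopologicalSpace X] [T2Space X] [TopologicalSpace Q]
    (act : G → C(X, X)) (p : C(X, Q)), (∀ x, act 1 x = x) →
    (∀ g h x, act (g * h) x = act g (act h x)) → IsQuotientMap p →
    (∀ x y, p x = p y ↔ ∃ g, y = act g x) →
    ∀ (γ : C(I, Q)) (x₀ : X), p x₀ = γ 0 → ∃ γ' : C(I, X), γ' 0 = x₀ ∧ ∀ t, p (γ' t) = γ t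

/-- Paths lift through the quotient map `Y^N → SP N Y`. -/
def T_PLF : Prop :=
  ∀ (Y : Type) [TopologicalSpace Y] [T2Space Y] (N : ℕ),
    ∀ γ : C(I, SP N Y), ∃ γ' : C(I, Fin N → Y), ∀ t, SP.mk (γ' t) = γ t

/-- Symmetric products of simply connected Hausdorff spaces are simply connected. -/
def T_SCP : Prop :=
  ∀ (Y : Type) [TopologicalSpace Y] [T2Space Y] (N : ℕ),
    SimplyConnectedSpace Y → SimplyConnectedSpace (SP N Y)

/-- Homotopy equivalences preserve simple connectivity. -/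
def T_SCH : Prop :=
  ∀ (X Y : Type) [TopologicalSpace X] [TopologicalSpace Y], Nonempty (X ≃ₕ Y) →
    SimplyConnectedSpace X → SimplyConnectedSpace Y

/-! ## Cohomology, homology and homotopy -/

/-- Rational cohomology is the dual of rational homology. -/
def T_COH : Prop :=
  ∃ φ : ∀ (k : ℕ) (Y : Type) [TopologicalSpace Y], HQ k Y ≃ₗ[ℚ] Module.Dual ℚ (HH ℚ k Y),
    ∀ (k : ℕ) (Y Y' : Type) [TopologicalSpace Y] [TopologicalSpace Y'] (f : C(Y, Y'))
      (z : HQ k Y'), φ k Y (HQ.map k f z) = (φ k Y' z).comp (HH.map ℚ k f)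

/-- `HQ.map` is functorial. -/
def T_HQF : Prop :=
  (∀ (k : ℕ) (Y : Type) [TopologicalSpace Y] (z : HQ k Y),
    HQ.map k (ContinuousMap.id Y) z = z) ∧
  (∀ (k : ℕ) (Y Y' Y'' : Type) [TopologicalSpace Y] [TopologicalSpace Y'] [TopologicalSpace Y'']
    (f : C(Y, Y')) (g : C(Y', Y'')) (z : HQ k Y''),
    HQ.map k (g.comp f) z = HQ.map k f (HQ.map k g z))

/-- Rational ellipticity is invariant under homeomorphisms. -/
def T_REH : Prop :=
  ∀ (X Y : Type) [TopologicalSpace X] [TopologicalSpace Y], Nonempty (X ≃ₜ Y) →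
    RationallyElliptic X → RationallyElliptic Y

/-! ## Hodge theory -/

/-- `f` is a morphism of mixed Hodge structures -/
def IsMor {P H : Type} [AddCommGroup P] [Module ℚ P] [AddCommGroup H] [Module ℚ H]
    (MP : MHS P) (MH : MHS H) (f : P →ₗ[ℚ] H) : Prop :=
  (∀ j : ℤ, ∀ z ∈ MP.W j, f z ∈ MH.W j) ∧ (∀ p : ℤ, ∀ z ∈ MP.F p, f.baseChange ℂ z ∈ MH.F p)

/-- A nonzero morphism from a pure structure of weight `k` detects `Gr^W_k`. -/
def T_HDN : Prop :=
  ∀ (P H : Type) [AddCommGroup P] [Module ℚ P] [AddCommGroup H] [Module ℚ H]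
    (MP : MHS P) (MH : MHS H) (f : P →ₗ[ℚ] H) (k : ℤ), IsMor MP MH f → MP.W (k - 1) = ⊥ →
    MP.W k = ⊤ → f ≠ 0 → MH.W (k - 1) ≠ MH.W k

/-- Numerical identity: twice the degree of `F` is the degree of `W`. -/
def T_HD1 : Prop :=
  ∀ (H : Type) [AddCommGroup H] [Module ℚ H] [FiniteDimensional ℚ H] (M : MHS H) (N : ℕ),
    M.W (-N) = ⊥ → M.W N = ⊤ → M.F (-N) = ⊤ → M.F N = ⊥ →
    2 * ∑ p ∈ Finset.Ioc (-3 * N : ℤ) (3 * N), (Module.finrank ℂ (M.F p) : ℤ) =
      (7 * N) * (Module.finrank ℚ H : ℤ) -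
        ∑ k ∈ Finset.Ioo (-N : ℤ) N, (Module.finrank ℚ (M.W k) : ℤ)

/-- A bijective morphism of finite dimensional mixed Hodge structures is strict for `W`. -/
def T_HDB : Prop :=
  ∀ (P H : Type) [AddCommGroup P] [Module ℚ P] [AddCommGroup H] [Module ℚ H]
    [FiniteDimensional ℚ P] (MP : MHS P) (MH : MHS H) (f : P →ₗ[ℚ] H), IsMor MP MH f →
    Function.Bijective f → ∀ k : ℤ, (MP.W k).map f = MH.W k

/-- `Gr^W_k ≠ 0` has a nonzero Hodge number. -/
def T_HDF : Prop :=
  ∀ (H : Type) [AddCommGroup H] [Module ℚ H] [FiniteDimensional ℚ H] (M : MHS H) (k : ℤ),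
    M.W (k - 1) ≠ M.W k → ∃ p q : ℤ, p + q = k ∧ M.h p q ≠ 0

/-! ## Algebraic geometry -/

/-- The points of an affine variety. -/
def T_CHT : Prop :=
  ∀ (N : ℕ) (S : Finset (MvPolynomial (Fin N) ℂ)),
    ∃ e : Zeros S ≃ₜ affSet N S, ∀ x : Zeros S, (e x : PN N) = chart x.1

/-- Polynomial maps are morphisms. -/
def T_RGA : Prop :=
  ∀ (N M : ℕ) (S : Finset (MvPolynomial (Fin N) ℂ))
    (S' : Finset (MvPolynomial (Fin M) ℂ)) (G : Fin M → MvPolynomial (Fin N) ℂ),
    (∀ x : Fin N → ℂ, (∀ f ∈ S, MvPolynomial.eval x f = 0) →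
      ∀ f ∈ S', MvPolynomial.eval (fun i => MvPolynomial.eval x (G i)) f = 0) →
    ∃ f : RegMap (affQP N S) (affQP M S'), ∀ (x : Fin N → ℂ) (hx : chart x ∈ affSet N S),
      (f.toMap ⟨chart x, hx⟩).1 = (chart (fun i => MvPolynomial.eval x (G i)) : PN M)

/-- The symmetric square of `VV 3` is the affine variety defined by `SXX`. -/
def T_XX : Prop :=
  ∃ e : SP 2 (VV 3) ≃ₜ Zeros SXX, ∀ y y' : VV 3, (e (SP.mk ![y, y'])).1 = ptXX y y'

/-- This variety is irreducible. -/
def T_IRR : Prop := XQ.IsIrreducible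

/-- The product `VV 1 × QS` as an affine variety. -/
def T_DQ : Prop := ∃ e : VV 1 × QS ≃ₜ Zeros SDQ, ∀ p : VV 1 × QS, (e p).1 = ptDQ p

/-- The Segre embedding identifies `EC × PN 1` with `EPset`. -/
def T_SEG : Prop :=
  ∃ e : EC × PN 1 ≃ₜ EPset, ∀ (x : NZ 2) (y : NZ 1) (p : EC × PN 1), p.1.1 = pt x → p.2 = pt y →
    (e p).1 = pt (segre x y)

/-- `EC × PN 1` is smooth. -/
def T_EPS : Prop := EPQ.IsSmooth

/-- The morphism `VV 1 × QS → EC × PN 1` is algebraic. -/
def T_RGJ : Prop :=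
  ∃ f : RegMap DQ EPQ, ∀ (p : VV 1 × QS) (hp : (chart (ptDQ p) : PN 5) ∈ affSet 5 SDQ) (x : NZ 2)
    (y : NZ 1), (VV.toEC p.1).1 = pt x → QS.line p.2 = pt y →
      (f.toMap ⟨chart (ptDQ p), hp⟩).1 = (pt (segre x y) : PN 5)

/-- The morphism `VV 1 × QS → SP 2 (VV 3)` is algebraic. -/
def T_RGG : Prop :=
  ∃ f : RegMap DQ XQ, ∀ (p : VV 1 × QS) (hp : (chart (ptDQ p) : PN 5) ∈ affSet 5 SDQ),
    (f.toMap ⟨chart (ptDQ p), hp⟩).1 = (chart (ptXX (mulV p) (VV.base 3)) : PN 20)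

/-! ## The interface with the topology of symmetric products -/

/-- Topology of the symmetric square (blocks of helper93 and helper97). -/
def T_SPT : Prop :=
  RationallyElliptic (SP 2 (VV 3)) ∧
    Function.Bijective (HH.map ℚ 3 (SP.inc (VV.base 3)))

end Pool.Agent.H64.LB
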