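import Pool.Agent.H64.LB.OM2

/-!
# The module OM, third part
-/

open Topology Set
open Pool.Agent.H59
open scoped TensorProduct unitInterval ContinuousMap

namespace Pool.Agent.H64.LB

/-- the map `mulO` with values in `OO 3 × Unit` -/
noncomputable def mulO' : C(OO (0 + 1) × S2, OO (2 + 1) × Unit) :=
  mulO.prodMk (ContinuousMap.const _ ())

theorem mulO'_U : MapsTo mulO' (UU 0 S2) (UU 2 Unit) := fun _ h => h

theorem mulO'_W : MapsTo mulO' (WW 0 S2) (WW 2 Unit) := by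
  intro p hp
  change (fun i => p.1.1.2 0 * p.2.1 i) ≠ 0
  intro h
  apply p.2.ne_zero
  funext i
  have h1 := congrFun h i
  simp only [Pi.zero_apply, mul_eq_zero] at h1
  rcases h1 with h1 | h1
  · exact absurd (funext fun j => by rw [fin01 j]; exact h1) hp
  · exact h1

/-- the map `Sph 0 × S2 → Sph 2 × Unit` -/
def mS' : C(Sph 0 × S2, Sph 2 × Unit) := mS.prodMk (ContinuousMap.const _ ())

theorem mulO'_psi (d : Fin 3 → HH ℚ 2 (Sph 0 × S2)) :
    HH.map ℚ 2 (res mulO' (mapsTo_inter mulO'_U mulO'_W)) (psi 0 S2 2 d) =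
      psi 2 Unit 2 (fun j => HH.map ℚ 2 mS' (d j)) := by
  rw [psi, psi, ← HH.map_comp, map_sum, map_sum]
  refine Finset.sum_congr rfl (fun j _ => ?_)
  rw [← HH.map_comp, ← HH.map_comp, ← HH.map_comp]
  rfl

theorem om (hMV : T_MV) (hSEC : T_SEC) (hS2H : T_S2H) (hS2E : T_S2E) (hCON : T_CON)
    (hHM : T_HM) (hDU : T_DU) : T_OM := by
  obtain ⟨M⟩ := hMV ℚ
  obtain ⟨⟨e2⟩, -, h3, -⟩ := hS2H ℚ
  obtain ⟨eS, heS⟩ := hS2E
  have hS23 : Subsingleton (HH ℚ 3 S2) := h3 0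
  have hu : ∀ q, Subsingleton (HH ℚ (q + 1) Unit) := fun q => hCON ℚ Unit q
  -- `Sph 2 × Unit`
  let eP : Sph 2 × Unit ≃ₜ Sph 2 := Homeomorph.prodPUnit (Sph 2)
  have bP : ∀ q, Function.Bijective (HH.map ℚ q (eP : C(Sph 2 × Unit, Sph 2))) :=
    fun q => HH_map_homeo_bijective ℚ q eP
  have bS : ∀ q, Function.Bijective (HH.map ℚ q eS.toFun) :=
    fun q => HH_hequiv_bijective hHM ℚ q eS
  have hP3 : Subsingleton (HH ℚ 3 (Sph 2 × Unit)) := by
    have : Subsingleton (HH ℚ 3 (Sph 2)) := (bS 3).2.subsingleton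
    exact ⟨fun a b => (bP 3).1 (Subsingleton.elim _ _)⟩
  have h03 : Subsingleton (HH ℚ 3 (Sph 0 × S2)) := by
    refine subsingleton_of_forall_eq 0 (fun d => ?_)
    obtain ⟨a, b, rfl⟩ := sph0_decomp hHM hDU 3 d
    rw [Subsingleton.elim a 0, Subsingleton.elim b 0, map_zero, map_zero, add_zero]
  have hmS : (eP : C(Sph 2 × Unit, Sph 2)).comp mS' = mS := rfl
  -- injectivity and surjectivity of `mS'` on the kernel
  have mi : ∀ d : HH ℚ 2 (Sph 0 × S2),
      HH.map ℚ 2 (ContinuousMap.snd : C(Sph 0 × S2, S2)) d = 0 → HH.map ℚ 2 mS' d = 0 → d = 0 := by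
    intro d hd h
    refine mS_inj hHM hDU hS2H ⟨eS, heS⟩ d hd ?_
    rw [← hmS, HH.map_comp, h, map_zero]
  have ms : ∀ c : HH ℚ 2 (Sph 2 × Unit), ∃ d : HH ℚ 2 (Sph 0 × S2),
      HH.map ℚ 2 (ContinuousMap.snd : C(Sph 0 × S2, S2)) d = 0 ∧ HH.map ℚ 2 mS' d = c := by
    intro c
    obtain ⟨d, hd, h⟩ := mS_surj hHM hS2H ⟨eS, heS⟩ (HH.map ℚ 2 (eP : C(Sph 2 × Unit, Sph 2)) c)
    refine ⟨d, hd, (bP 2).1 ?_⟩
    rw [← h, ← HH.map_comp, hmS]
  have d1 := delta_inj (k := 0) (T := S2) hHM hSEC M 2 hS23 h03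
  have d3 := delta_inj (k := 2) (T := Unit) hHM hSEC M 2 (hu 2) hP3
  have r1 := delta_range (k := 0) (T := S2) hHM hSEC M 2
  have r3 := delta_range (k := 2) (T := Unit) hHM hSEC M 2
  have p1 := psi_bijective (k := 0) (T := S2) hSEC 2
  have p3 := psi_bijective (k := 2) (T := Unit) hSEC 2
  have hnat := M.natural _ _ _ _ _ _ (UU_open 0 S2) (WW_open 0 S2) (UU_WW 0 S2)
    (UU_open 2 Unit) (WW_open 2 Unit) (UU_WW 2 Unit) mulO' mulO'_U mulO'_W 2
  have hbij' : Function.Bijective (HH.map ℚ 3 mulO') := by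
    constructor
    · rw [injective_iff_map_eq_zero]
      intro z hz
      obtain ⟨d, hd⟩ := p1.2 (M.δ _ (UU 0 S2) (WW 0 S2) 2 z)
      have h1 := (r1 d).1 ⟨z, hd.symm⟩
      have h2 := hnat z
      rw [hz, map_zero, ← hd, mulO'_psi] at h2
      have h4 : (fun j => HH.map ℚ 2 mS' (d j)) = 0 := by
        apply p3.1
        rw [← h2]
        simp [psi]
      have h5 : d = 0 := by
        funext j
        exact mi (d j) (h1.1 j) (congrFun h4 j)
      apply d1
      rw [← hd, h5]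
      simp [psi]
    · intro y
      obtain ⟨c, hc⟩ := p3.2 (M.δ _ (UU 2 Unit) (WW 2 Unit) 2 y)
      have h1 := (r3 c).1 ⟨y, hc.symm⟩
      choose d hd using fun j => ms (c j)
      have hsum : ∑ j, d j = 0 := by
        apply mi
        · rw [map_sum]
          exact Finset.sum_eq_zero fun j _ => (hd j).1
        · rw [map_sum]
          rw [Finset.sum_congr rfl fun j _ => (hd j).2]
          exact h1.2
      obtain ⟨z, hz⟩ := (r1 d).2 ⟨fun j => (hd j).1, hsum⟩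
      refine ⟨z, d3 ?_⟩
      refine (hnat z).trans ?_
      rw [hz, mulO'_psi, ← hc]
      congr 1
      funext j
      exact (hd j).2
  -- remove the factor `Unit`
  let eO : OO 3 × Unit ≃ₜ OO 3 := Homeomorph.prodPUnit (OO 3)
  have bO := HH_map_homeo_bijective ℚ 3 eO
  have hbij : Function.Bijective (HH.map ℚ 3 mulO) := by
    have h : (HH.map ℚ 3 mulO : _ → _) =
        (HH.map ℚ 3 (eO : C(OO 3 × Unit, OO 3))) ∘ (HH.map ℚ 3 mulO') := by
      funext z
      exact HH.map_comp ℚ 3 mulO' (eO : C(OO 3 × Unit, OO 3)) z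
    rw [h]
    exact bO.comp hbij'
  refine ⟨hbij, ?_⟩
  -- the dimension
  let H := HH ℚ 2 (Sph 2 × Unit)
  let eH : H ≃ₗ[ℚ] ℚ := ((LinearEquiv.ofBijective _ (bP 2)).trans
    (LinearEquiv.ofBijective _ (bS 2)).symm).trans e2
  let Sg : (Fin 3 → H) →ₗ[ℚ] H := ∑ j, LinearMap.proj j
  let Psi : (Fin 3 → H) →ₗ[ℚ] HH ℚ 2 ↥(UU 2 Unit ∩ WW 2 Unit) :=
    { toFun := psi 2 Unit 2
      map_add' := fun c c' => by simp [psi, Finset.sum_add_distrib]
      map_smul' := fun r c => by simp [psi, Finset.smul_sum] }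
  let D := M.δ (OO (2 + 1) × Unit) (UU 2 Unit) (WW 2 Unit) 2
  have hrange : LinearMap.range D = (LinearMap.ker Sg).map Psi := by
    ext w
    constructor
    · rintro ⟨y, rfl⟩
      obtain ⟨c, hc⟩ := p3.2 (D y)
      refine ⟨c, ?_, hc⟩
      have := ((r3 c).1 ⟨y, hc.symm⟩).2
      simpa [Sg] using this
    · rintro ⟨c, hc, rfl⟩
      have hc' : ∑ j, c j = 0 := by simpa [Sg] using hc
      obtain ⟨y, hy⟩ := (r3 c).2 ⟨fun j => by
        exact @Subsingleton.elim _ (hu 1) _ _, hc'⟩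
      exact ⟨y, hy⟩
  have f1 : Module.finrank ℚ (HH ℚ 3 (OO 1 × S2)) = Module.finrank ℚ (LinearMap.range D) := by
    rw [(LinearEquiv.ofBijective _ hbij').finrank_eq]
    exact (LinearEquiv.ofInjective D d3).finrank_eq
  have f2 : Module.finrank ℚ ((LinearMap.ker Sg).map Psi) =
      Module.finrank ℚ (LinearMap.ker Sg) :=
    (Submodule.equivMapOfInjective Psi p3.1 (LinearMap.ker Sg)).finrank_eq.symm
  have f3 : Module.finrank ℚ H = 1 := by rw [eH.finrank_eq, Module.finrank_self]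
  have hfin : Module.Finite ℚ H := Module.Finite.equiv eH.symm
  have f4 := LinearMap.finrank_range_add_finrank_ker Sg
  have f5 : LinearMap.range Sg = ⊤ := by
    rw [LinearMap.range_eq_top]
    intro x
    refine ⟨Pi.single 0 x, ?_⟩
    simp [Sg, Finset.sum_pi_single]
  rw [f5, finrank_top, f3, Module.finrank_pi_fintype, Finset.sum_const, f3] at f4
  rw [f1, hrange, f2]
  simp at f4
  omega

end Pool.Agent.H64.LB
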