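import Pool.Agent.H64.LB.Util

/-!
# The module TE
-/

open Topology Set
open Pool.Agent.H59
open scoped TensorProduct unitInterval ContinuousMap

namespace Pool.Agent.H64.LB

/-- the preimage of `A` in `X × T` -/
def prePr {X : Type} [TopologicalSpace X] (T : Type) [TopologicalSpace T] (A : Set X) :
    A × T ≃ₜ ↥((Prod.fst : X × T → X) ⁻¹' A) where
  toFun p := ⟨(p.1.1, p.2), p.1.2⟩
  invFun p := (⟨p.1.1, p.2⟩, p.1.2)
  left_inv _ := rfl
  right_inv _ := rfl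
  continuous_toFun := by fun_prop
  continuous_invFun := by fun_prop

theorem finrank_sph1 (hSUSP : T_SUSP) (hS2H : T_S2H) :
    Module.finrank ℚ (HH ℚ 3 (Sph 1 × S2)) = 1 ∧ Module.Finite ℚ (HH ℚ 3 (Sph 1 × S2)) := by
  obtain ⟨S⟩ := hSUSP ℚ
  obtain ⟨⟨e⟩, -, h3, -⟩ := hS2H ℚ
  have hs : Subsingleton (HH ℚ 3 S2) := h3 0
  have htop : KK ℚ 1 (2 + 1) S2 = ⊤ := by
    rw [KK, LinearMap.ker_eq_top]
    ext z
    exact Subsingleton.elim _ _
  let E : HH ℚ 3 (Sph 1 × S2) ≃ₗ[ℚ] ℚ :=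
    (Submodule.topEquiv.symm.trans (LinearEquiv.ofEq _ _ htop.symm)).trans ((S.κ 1 2 S2).trans e)
  exact ⟨by rw [E.finrank_eq, Module.finrank_self], Module.Finite.equiv E.symm⟩

theorem te (hMV : T_MV) (hINF : T_INF) (hOM : T_OM) (hPHAM : T_PHAM) (hSUSP : T_SUSP)
    (hS2H : T_S2H) (hHM : T_HM) : T_TE := by
  intro h0
  obtain ⟨M⟩ := hMV ℚ
  obtain ⟨hoe, W, hWo, hcov, hWc, ⟨eS⟩⟩ := hINF
  obtain ⟨e1, he1⟩ := hPHAM 1
  let A : Set EC := range VV.toEC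
  let U : Set (EC × S2) := Prod.fst ⁻¹' A
  let V : Set (EC × S2) := Prod.fst ⁻¹' W
  have hUo : IsOpen U := hoe.isOpen_range.preimage continuous_fst
  have hVo : IsOpen V := hWo.preimage continuous_fst
  have hUV : U ∪ V = univ := by
    rw [← Set.preimage_union, hcov, Set.preimage_univ]
  let e0 : VV 1 ≃ₜ A := hoe.isEmbedding.toHomeomorph
  let eU : VV 1 × S2 ≃ₜ U := (e0.prodCongr (Homeomorph.refl S2)).trans (prePr S2 A)
  have hcomp : (inc U).comp (eU : C(VV 1 × S2, U)) = VV.toEC.prodMap (ContinuousMap.id S2) := by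
    ext x
    · rfl
    · rfl
  have hU0 : ∀ a : HH ℚ 3 U, HH.map ℚ 3 (inc U) a = 0 := by
    intro a
    obtain ⟨z, rfl⟩ := (HH_map_homeo_bijective ℚ 3 eU).2 a
    rw [← HH.map_comp, hcomp, h0, LinearMap.zero_apply]
  have hsurj : Function.Surjective (HH.map ℚ 3 (incL U V)) := by
    intro a
    have h1 : HH.map ℚ 3 (inc U) a + HH.map ℚ 3 (inc V) 0 = 0 := by
      rw [hU0, map_zero, add_zero]
    obtain ⟨w, hw, -⟩ := (M.exact_sum (EC × S2) U V hUo hVo hUV 3 a 0).1 h1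
    exact ⟨w, hw.symm⟩
  -- the intersection
  let eI : ↥(A ∩ W) × S2 ≃ₜ ↥(U ∩ V) := prePr S2 (A ∩ W)
  have b1 := HH_hequiv_prod_bijective hHM ℚ 3 (T := S2) eS
  have b2 := HH_map_homeo_bijective ℚ 3 eI
  obtain ⟨f1, f2⟩ := finrank_sph1 hSUSP hS2H
  let E := (LinearEquiv.ofBijective _ b1).trans (LinearEquiv.ofBijective _ b2)
  have hf : Module.finrank ℚ (HH ℚ 3 ↥(U ∩ V)) = 1 := by rw [← E.finrank_eq, f1]
  have hfin : Module.Finite ℚ (HH ℚ 3 ↥(U ∩ V)) := Module.Finite.equiv E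
  -- the affine part
  have b3 := HH_map_homeo_bijective ℚ 3 eU
  have b4 : Function.Bijective (HH.map ℚ 3 ((VV.re 1).prodMap (ContinuousMap.id S2))) := by
    rw [← he1]
    exact HH_hequiv_prod_bijective hHM ℚ 3 e1
  have hf2 : Module.finrank ℚ (HH ℚ 3 U) = 2 := by
    rw [← (LinearEquiv.ofBijective _ b3).finrank_eq, (LinearEquiv.ofBijective _ b4).finrank_eq]
    exact hOM.2
  have h5 := LinearMap.finrank_range_le (HH.map ℚ 3 (incL U V))
  rw [LinearMap.range_eq_top.2 hsurj, finrank_top, hf, hf2] at h5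
  omega

end Pool.Agent.H64.LB
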