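import Pool.Agent.H64.LB.Spaces

/-!
# Elementary algebraic geometry: affine varieties as quasi-projective varieties
-/

open Topology Set MvPolynomial

namespace Pool.Agent.H64.LB

theorem eval_smul_homog {n : ℕ} {F : Pol n} {d : ℕ} (hF : F.IsHomogeneous d) (c : ℂ)
    (v : Fin (n + 1) → ℂ) : eval (c • v) F = c ^ d * eval v F := by
  rw [eval_eq', eval_eq', Finset.mul_sum]
  refine Finset.sum_congr rfl (fun m hm => ?_)
  have h1 : m.degree = d := by
    have := hF (mem_support_iff.1 hm)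
    have h0 : Finsupp.weight (fun _ : Fin (n + 1) => (1 : ℕ)) m = m.degree :=
      (congrArg (fun f => f m) (Finsupp.degree_eq_weight_one (R := ℕ) (σ := Fin (n + 1)))).symm
    rw [← h0]
    exact this
  simp only [Pi.smul_apply, smul_eq_mul, mul_pow, Finset.prod_mul_distrib]
  rw [Finset.prod_pow_eq_pow_sum]
  have h2 : ∑ i, m i = d := by
    rw [← h1, Finsupp.degree_eq_sum]
  rw [h2]
  ring

theorem exists_pt {n : ℕ} (y : PN n) : ∃ v : NZ n, pt v = y := Quotient.exists_rep y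

theorem van_pt_iff {n : ℕ} {F : Pol n} (hF : Homog F) (v : NZ n) :
    Van F (pt v) ↔ eval v.1 F = 0 := by
  constructor
  · intro h
    exact h v rfl
  · intro h w hw
    obtain ⟨d, hd⟩ := hF
    obtain ⟨c, hc, hcv⟩ := Quotient.exact hw
    have h1 : eval (c • w.1) F = 0 := by rw [← hcv]; exact h
    rw [eval_smul_homog hd] at h1
    exact (mul_eq_zero.1 h1).resolve_left (pow_ne_zero _ hc)

/-- homogenisation of degree `d` with respect to the coordinate `0` -/
noncomputable def hmg {N : ℕ} (d : ℕ) (f : MvPolynomial (Fin N) ℂ) : Pol N :=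
  ∑ m ∈ f.support, C (coeff m f) * X 0 ^ (d - m.degree) * ∏ i, X i.succ ^ m i

theorem hmg_homog {N : ℕ} {d : ℕ} {f : MvPolynomial (Fin N) ℂ} (h : f.totalDegree ≤ d) :
    (hmg d f).IsHomogeneous d := by
  refine IsHomogeneous.sum _ _ _ (fun m hm => ?_)
  have h1 : (∏ i, (X i.succ : Pol N) ^ m i).IsHomogeneous (∑ i, m i) :=
    IsHomogeneous.prod _ _ _ (fun i _ => by
      simpa using (isHomogeneous_X_pow (R := ℂ) (i.succ) (m i)))
  have h2 : ∑ i, m i = m.degree := by rw [Finsupp.degree_eq_sum]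
  have h3 : m.degree ≤ d := by
    refine le_trans ?_ h
    exact le_totalDegree hm
  have h4 := ((isHomogeneous_C (Fin (N + 1)) (coeff m f)).mul
    (isHomogeneous_X_pow (R := ℂ) (0 : Fin (N + 1)) (d - m.degree))).mul h1
  rw [h2, zero_add, Nat.sub_add_cancel h3] at h4
  exact h4

theorem hmg_eval {N : ℕ} (d : ℕ) (f : MvPolynomial (Fin N) ℂ) (x : Fin N → ℂ) :
    eval (Fin.cons 1 x : Fin (N + 1) → ℂ) (hmg d f) = eval x f := by
  rw [eval_eq' x f]
  simp only [hmg, map_sum, map_mul, map_pow, eval_C, eval_X, Fin.cons_zero, one_pow, mul_one,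
    map_prod, Fin.cons_succ]

/-- the point `[1 : x]` -/
def chart {N : ℕ} (x : Fin N → ℂ) : PN N :=
  pt ⟨Fin.cons 1 x, fun h => by simpa using congrFun h 0⟩

/-- the affine variety defined by `S`, inside projective space -/
def affSet (N : ℕ) (S : Finset (MvPolynomial (Fin N) ℂ)) : Set (PN N) :=
  {y | ∃ x : Fin N → ℂ, (∀ f ∈ S, MvPolynomial.eval x f = 0) ∧ y = chart x}

theorem exists_chart {N : ℕ} (v : NZ N) (h : v.1 0 ≠ 0) :
    pt v = chart (fun i => v.1 i.succ / v.1 0) := by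
  refine Quotient.sound ⟨(v.1 0)⁻¹, inv_ne_zero h, ?_⟩
  funext i
  refine Fin.cases ?_ (fun i => ?_) i
  · simp [h]
  · simp [div_eq_inv_mul]

/-- Affine varieties are quasi-projective. -/
theorem affSet_locClosed (N : ℕ) (S : Finset (MvPolynomial (Fin N) ℂ)) :
    ∃ S' T : Finset (Pol N), (∀ f ∈ S', Homog f) ∧ (∀ g ∈ T, Homog g) ∧
      affSet N S = {x | (∀ f ∈ S', Van f x) ∧ ∃ g ∈ T, ¬ Van g x} := by
  classical
  have hX : Homog (X 0 : Pol N) := ⟨1, isHomogeneous_X _ _⟩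
  have hH : ∀ f : MvPolynomial (Fin N) ℂ, Homog (hmg f.totalDegree f) :=
    fun f => ⟨_, hmg_homog le_rfl⟩
  refine ⟨S.image (fun f => hmg f.totalDegree f), {X 0}, ?_, ?_, ?_⟩
  · intro f hf
    obtain ⟨f', _, rfl⟩ := Finset.mem_image.1 hf
    exact hH f'
  · intro g hg
    rw [Finset.mem_singleton.1 hg]
    exact hX
  · apply Set.eq_of_subset_of_subset
    · rintro y ⟨x, hx, rfl⟩
      refine ⟨?_, X 0, Finset.mem_singleton_self _, ?_⟩
      · intro f hf
        obtain ⟨f', hf', rfl⟩ := Finset.mem_image.1 hf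
        rw [chart, van_pt_iff (hH f')]
        rw [hmg_eval]
        exact hx f' hf'
      · rw [chart, van_pt_iff hX]
        simp
    · intro y hy
      obtain ⟨h1, g, hg, h2⟩ := hy
      have hg' : g = X 0 := Finset.mem_singleton.1 hg
      subst hg'
      obtain ⟨v, hv⟩ := exists_pt y
      rw [← hv, van_pt_iff hX, eval_X] at h2
      refine ⟨fun i => v.1 i.succ / v.1 0, ?_, hv.symm.trans (exists_chart v h2)⟩
      intro f hf
      have h3 : Van (hmg f.totalDegree f) y :=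
        h1 (hmg f.totalDegree f) (Finset.mem_image.2 ⟨f, hf, rfl⟩)
      rw [← hv, exists_chart v h2, chart, van_pt_iff (hH f), hmg_eval] at h3
      exact h3

/-- the affine variety defined by `S` as a quasi-projective variety -/
def affQP (N : ℕ) (S : Finset (MvPolynomial (Fin N) ℂ)) : QP :=
  ⟨N, affSet N S, affSet_locClosed N S⟩

theorem affQP_isAffine (N : ℕ) (S : Finset (MvPolynomial (Fin N) ℂ)) : (affQP N S).IsAffine :=
  ⟨S, by
    ext y
    constructor
    · rintro ⟨x, hx, rfl⟩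
      exact ⟨x, _, hx, rfl⟩
    · rintro ⟨x, h, hx, rfl⟩
      exact ⟨x, hx, rfl⟩⟩

/-- the common zeros of finitely many polynomials -/
abbrev Zeros {N : ℕ} (S : Finset (MvPolynomial (Fin N) ℂ)) : Type :=
  {x : Fin N → ℂ // ∀ f ∈ S, MvPolynomial.eval x f = 0}

/-! ### The symmetric square of `VV 3` -/

/-- index of the coordinate `s_i` -/
def sv (i : Fin 4) : Fin 20 := ⟨i, by omega⟩

/-- index of the coordinate `P_ij` -/
def pv (i j : Fin 4) : Fin 20 := ⟨4 + 4 * i + j, by omega⟩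

/-- The equations of `SP 2 (VV 3)` in `ℂ^20` with coordinates `s = y + y'`,
`P = (y - y')(y - y')^T`: `P` is symmetric of rank at most one, and `F(y) = F(y') = 0` for
`F = a^3 + z_1^2 + z_2^2 + z_3^2 - 1`. -/
noncomputable def SXX : Finset (MvPolynomial (Fin 20) ℂ) := by
  classical
  exact
    (Finset.univ.image (fun k : Fin 4 × Fin 4 => X (pv k.1 k.2) - X (pv k.2 k.1))) ∪
    (Finset.univ.image (fun k : (Fin 4 × Fin 4) × (Fin 4 × Fin 4) =>
      X (pv k.1.1 k.1.2) * X (pv k.2.1 k.2.2) - X (pv k.1.1 k.2.2) * X (pv k.2.1 k.1.2))) ∪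
    {X (sv 0) ^ 3 + 3 * X (sv 0) * X (pv 0 0) +
      2 * ∑ i : Fin 3, (X (sv i.succ) ^ 2 + X (pv i.succ i.succ)) - 8} ∪
    (Finset.univ.image (fun j : Fin 4 =>
      X (pv j 0) * (3 * X (sv 0) ^ 2 + X (pv 0 0)) +
        4 * ∑ i : Fin 3, X (pv j i.succ) * X (sv i.succ)))

/-- the vector in `ℂ^4` of a point of `VV 3` -/
def vec4 (y : VV 3) : Fin 4 → ℂ := Fin.cons y.1.1 y.1.2

/-- the point of `ℂ^20` of an unordered pair -/
def ptXX (y y' : VV 3) : Fin 20 → ℂ := fun k =>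
  if h : (k : ℕ) < 4 then vec4 y ⟨k, h⟩ + vec4 y' ⟨k, h⟩
  else (vec4 y ⟨((k : ℕ) - 4) / 4, by omega⟩ - vec4 y' ⟨((k : ℕ) - 4) / 4, by omega⟩) *
    (vec4 y ⟨((k : ℕ) - 4) % 4, by omega⟩ - vec4 y' ⟨((k : ℕ) - 4) % 4, by omega⟩)

/-- The counterexample: the symmetric square of the affine threefold `VV 3`. -/
noncomputable def XQ : QP := affQP 20 SXX

/-! ### The product `VV 1 × QS` -/

/-- equations of `VV 1 × QS` in `ℂ^5`, coordinates `a, b, z_1, z_2, z_3` -/
noncomputable def SDQ : Finset (MvPolynomial (Fin 5) ℂ) := by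
  classical
  exact {X 0 ^ 3 + X 1 ^ 2 - 1, X 2 ^ 2 + X 3 ^ 2 + X 4 ^ 2 - 1}

/-- the point of `ℂ^5` of a point of `VV 1 × QS` -/
def ptDQ (p : VV 1 × QS) : Fin 5 → ℂ := ![p.1.1.1, p.1.1.2 0, p.2.1 0, p.2.1 1, p.2.1 2]

/-- the quasi-projective variety `VV 1 × QS` -/
noncomputable def DQ : QP := affQP 5 SDQ

/-! ### The product `EC × PN 1` -/

/-- the index of the coordinate `x_i y_j` of the Segre embedding `PN 2 × PN 1 → PN 5` -/
def sg (i : Fin 3) (j : Fin 2) : Fin 6 := ⟨2 * i + j, by omega⟩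

/-- the Segre map on vectors -/
def segre (x : NZ 2) (y : NZ 1) : NZ 5 :=
  ⟨fun k => x.1 ⟨(k : ℕ) / 2, by omega⟩ * y.1 ⟨(k : ℕ) % 2, by omega⟩, by
    intro h
    obtain ⟨i, hi⟩ := Function.ne_iff.1 x.2
    obtain ⟨j, hj⟩ := Function.ne_iff.1 y.2
    have h1 := congrFun h (sg i j)
    have e1 : (⟨((sg i j : Fin 6) : ℕ) / 2, by omega⟩ : Fin 3) = i := by
      apply Fin.ext
      change (2 * (i : ℕ) + j) / 2 = i
      omega
    have e2 : (⟨((sg i j : Fin 6) : ℕ) % 2, by omega⟩ : Fin 2) = j := by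
      apply Fin.ext
      change (2 * (i : ℕ) + j) % 2 = j
      omega
    simp only [Pi.zero_apply, mul_eq_zero] at h1
    rw [e1, e2] at h1
    rcases h1 with h1 | h1
    · exact hi h1
    · exact hj h1⟩

/-- equations of `EC × PN 1` in `PN 5` -/
noncomputable def SEP : Finset (Pol 5) := by
  classical
  exact
    (Finset.univ.image (fun k : Fin 3 × Fin 3 =>
      X (sg k.1 0) * X (sg k.2 1) - X (sg k.1 1) * X (sg k.2 0))) ∪
    (Finset.univ.image (fun j : Fin 2 =>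
      X (sg 0 j) ^ 3 + X (sg 1 j) ^ 2 * X (sg 2 j) - X (sg 2 j) ^ 3))

theorem SEP_homog : ∀ f ∈ SEP, Homog f := by
  classical
  intro f hf
  rw [SEP, Finset.mem_union] at hf
  rcases hf with hf | hf
  · obtain ⟨k, _, rfl⟩ := Finset.mem_image.1 hf
    exact ⟨2, ((isHomogeneous_X _ _).mul (isHomogeneous_X _ _)).sub
      ((isHomogeneous_X _ _).mul (isHomogeneous_X _ _))⟩
  · obtain ⟨j, _, rfl⟩ := Finset.mem_image.1 hf
    refine ⟨3, ((isHomogeneous_X_pow _ 3).add ?_).sub (isHomogeneous_X_pow _ 3)⟩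
    exact (isHomogeneous_X_pow (R := ℂ) (sg 1 j) 2).mul (isHomogeneous_X ℂ (sg 2 j))

/-- the set of points of `EC × PN 1` in `PN 5` -/
def EPset : Set (PN 5) := {x | ∀ f ∈ SEP, Van f x}

theorem EPset_locClosed : ∃ S T : Finset (Pol 5), (∀ f ∈ S, Homog f) ∧ (∀ g ∈ T, Homog g) ∧
    EPset = {x | (∀ f ∈ S, Van f x) ∧ ∃ g ∈ T, ¬ Van g x} := by
  refine ⟨SEP, {1}, SEP_homog, ?_, ?_⟩
  · intro g hg
    rw [Finset.mem_singleton.1 hg]
    exact ⟨0, isHomogeneous_one _ _⟩
  · ext y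
    constructor
    · intro h
      refine ⟨h, 1, Finset.mem_singleton_self _, ?_⟩
      obtain ⟨v, rfl⟩ := exists_pt y
      rw [van_pt_iff ⟨0, isHomogeneous_one _ _⟩]
      simp
    · rintro ⟨h, _⟩
      exact h

/-- the quasi-projective variety `EC × PN 1` -/
noncomputable def EPQ : QP := ⟨5, EPset, EPset_locClosed⟩

theorem EPQ_isProjective : EPQ.IsProjective := ⟨SEP, SEP_homog, rfl⟩

end Pool.Agent.H64.LB
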