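import Pool.Agent.H64.LB.Targets

/-!
# Final assembly from the targets
-/

open Topology Set
open Pool.Agent.H59
open scoped TensorProduct unitInterval ContinuousMap

namespace Pool.Agent.H64.LB

theorem HH_map_homeo_bijective (R : Type) [CommRing R] (q : ℕ) {X Y : Type} [TopologicalSpace X]
    [TopologicalSpace Y] (e : X ≃ₜ Y) :
    Function.Bijective (HH.map R q (e : C(X, Y))) := by
  have h1 : ∀ z, HH.map R q (e.symm : C(Y, X)) (HH.map R q (e : C(X, Y)) z) = z := by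
    intro z
    rw [← HH.map_comp]
    have : (e.symm : C(Y, X)).comp (e : C(X, Y)) = ContinuousMap.id X := by
      ext x
      simp
    rw [this, HH.map_id]
  have h2 : ∀ z, HH.map R q (e : C(X, Y)) (HH.map R q (e.symm : C(Y, X)) z) = z := by
    intro z
    rw [← HH.map_comp]
    have : (e : C(X, Y)).comp (e.symm : C(Y, X)) = ContinuousMap.id Y := by
      ext x
      simp
    rw [this, HH.map_id]
  exact ⟨Function.LeftInverse.injective h1, Function.RightInverse.surjective h2⟩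

/-- transport of a map through homeomorphisms -/
theorem HH_map_square (R : Type) [CommRing R] (q : ℕ) {X Y X' Y' : Type} [TopologicalSpace X]
    [TopologicalSpace Y] [TopologicalSpace X'] [TopologicalSpace Y'] (e : X ≃ₜ X') (e' : Y ≃ₜ Y')
    (f : C(X, Y)) (f' : C(X', Y')) (h : ∀ x, f' (e x) = e' (f x)) (z : HH R q X) :
    HH.map R q f' (HH.map R q (e : C(X, X')) z) =
      HH.map R q (e' : C(Y, Y')) (HH.map R q f z) := by
  rw [← HH.map_comp, ← HH.map_comp]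
  congr 2
  ext x
  exact h x

theorem HQ_bijective (hC : T_COH) (k : ℕ) {X Y : Type} [TopologicalSpace X] [TopologicalSpace Y]
    (f : C(X, Y)) (h : Function.Bijective (HH.map ℚ k f)) : Function.Bijective (HQ.map k f) := by
  obtain ⟨φ, hφ⟩ := hC
  let e : HH ℚ k X ≃ₗ[ℚ] HH ℚ k Y := LinearEquiv.ofBijective _ h
  constructor
  · intro z z' hz
    apply (φ k Y).injective
    have h1 := hφ k X Y f z
    have h2 := hφ k X Y f z'
    rw [hz, h2] at h1
    ext w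
    have h3 := LinearMap.congr_fun h1 (e.symm w)
    simp only [LinearMap.comp_apply] at h3
    have h4 : HH.map ℚ k f (e.symm w) = w := e.apply_symm_apply w
    rw [h4] at h3
    exact h3.symm
  · intro w
    refine ⟨(φ k Y).symm ((φ k X w).comp e.symm.toLinearMap), ?_⟩
    apply (φ k X).injective
    rw [hφ, LinearEquiv.apply_symm_apply]
    ext u
    simp only [LinearMap.comp_apply]
    congr 1
    exact e.symm_apply_apply u

theorem HQ_ne_zero (hC : T_COH) (k : ℕ) {X Y : Type} [TopologicalSpace X] [TopologicalSpace Y]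
    (f : C(X, Y)) (h : HH.map ℚ k f ≠ 0) : HQ.map k f ≠ 0 := by
  obtain ⟨φ, hφ⟩ := hC
  intro h0
  apply h
  ext w
  rw [LinearMap.zero_apply, ← Module.forall_dual_apply_eq_zero_iff ℚ]
  intro ψ
  have h1 := hφ k X Y f ((φ k Y).symm ψ)
  rw [h0, LinearMap.zero_apply, map_zero, LinearEquiv.apply_symm_apply] at h1
  exact (LinearMap.congr_fun h1 w).symm

theorem HQ_finite (hC : T_COH) (k : ℕ) {X : Type} [TopologicalSpace X]
    [Module.Finite ℚ (HH ℚ k X)] : Module.Finite ℚ (HQ k X) := by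
  obtain ⟨φ, -⟩ := hC
  exact Module.Finite.equiv (φ k X).symm

theorem isMor_of_regMap (T : HodgeTheory) {X Y : QP} (f : RegMap X Y) (k : ℕ) :
    IsMor (T.mhs Y k) (T.mhs X k) (HQ.map k f.toMap) :=
  ⟨T.map_W f k, T.map_F f k⟩

/-- The final theorem from the targets. -/
theorem goal_of_targets (hCHT : T_CHT) (hXX : T_XX) (hIRR : T_IRR) (hDQ : T_DQ) (hSEG : T_SEG)
    (hEPS : T_EPS) (hRGJ : T_RGJ) (hRGG : T_RGG) (hSPT : T_SPT) (hMUL : T_MUL) (hJH : T_JH)
    (hCOH : T_COH) (hREH : T_REH) (hHDN : T_HDN) (hHDB : T_HDB) (hHDF : T_HDF) : Goal := by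
  obtain ⟨eX', heX'⟩ := hXX
  obtain ⟨cX, hcX⟩ := hCHT 20 SXX
  obtain ⟨eD', heD'⟩ := hDQ
  obtain ⟨cD, hcD⟩ := hCHT 5 SDQ
  obtain ⟨eE, heE⟩ := hSEG
  obtain ⟨f, hf⟩ := hRGJ
  obtain ⟨g, hg⟩ := hRGG
  obtain ⟨hline, hj⟩ := hJH
  let eX : SP 2 (VV 3) ≃ₜ XQ.Pt := eX'.trans cX
  let eD : VV 1 × QS ≃ₜ DQ.Pt := eD'.trans cD
  let eE' : EC × PN 1 ≃ₜ EPQ.Pt := eE
  have heX : ∀ y y', (eX (SP.mk ![y, y'])).1 = (chart (ptXX y y') : PN 20) := by
    intro y y'
    change (cX (eX' (SP.mk ![y, y'])) : PN 20) = _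
    rw [hcX, heX']
  have heD : ∀ p, (eD p).1 = (chart (ptDQ p) : PN 5) := by
    intro p
    change (cD (eD' p) : PN 5) = _
    rw [hcD, heD']
  have memD : ∀ p, (chart (ptDQ p) : PN 5) ∈ affSet 5 SDQ := by
    intro p
    rw [← heD p]
    exact (eD p).2
  have heD2 : ∀ p, eD p = ⟨chart (ptDQ p), memD p⟩ := fun p => Subtype.ext (heD p)
  -- the morphism `g`
  have sqg : ∀ p, g.toMap (eD p) = eX (((SP.inc (VV.base 3)).comp mulV) p) := by
    intro p
    apply Subtype.ext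
    rw [heD2 p]
    refine (hg p (memD p)).trans ?_
    exact (heX (mulV p) (VV.base 3)).symm
  -- the morphism `f`
  have sqf : ∀ p, f.toMap (eD p) =
      eE' ((VV.toEC.prodMap (⟨QS.line, hline⟩ : C(QS, PN 1))) p) := by
    intro p
    apply Subtype.ext
    rw [heD2 p]
    obtain ⟨x, hx⟩ := exists_pt (VV.toEC p.1).1
    obtain ⟨y, hy⟩ := exists_pt (QS.line p.2)
    refine (hf p (memD p) x y hx.symm hy.symm).trans ?_
    exact (heE x y (VV.toEC p.1, QS.line p.2) hx.symm hy.symm).symm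
  -- homology
  have hgb : Function.Bijective (HH.map ℚ 3 g.toMap) := by
    have h1 : ∀ z, HH.map ℚ 3 g.toMap (HH.map ℚ 3 (eD : C(VV 1 × QS, DQ.Pt)) z) =
        HH.map ℚ 3 (eX : C(SP 2 (VV 3), XQ.Pt)) (HH.map ℚ 3 (SP.inc (VV.base 3)) (HH.map ℚ 3 mulV z)) := by
      intro z
      rw [HH_map_square ℚ 3 eD eX ((SP.inc (VV.base 3)).comp mulV) g.toMap sqg z, HH.map_comp]
    have h2 : Function.Bijective (fun z => HH.map ℚ 3 g.toMap (HH.map ℚ 3 (eD : C(VV 1 × QS, DQ.Pt)) z)) := by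
      have : (fun z => HH.map ℚ 3 g.toMap (HH.map ℚ 3 (eD : C(VV 1 × QS, DQ.Pt)) z)) =
          (HH.map ℚ 3 (eX : C(SP 2 (VV 3), XQ.Pt))) ∘ (HH.map ℚ 3 (SP.inc (VV.base 3))) ∘
            (HH.map ℚ 3 mulV) := by
        funext z
        exact h1 z
      rw [this]
      exact (HH_map_homeo_bijective ℚ 3 eX).comp (hSPT.2.comp hMUL.1)
    have h3 := HH_map_homeo_bijective ℚ 3 eD
    exact (Function.Bijective.of_comp_iff _ h3).1 h2
  have hfn : HH.map ℚ 3 f.toMap ≠ 0 := by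
    intro h0
    apply hj
    ext z
    have h1 := HH_map_square ℚ 3 eD eE' (VV.toEC.prodMap (⟨QS.line, hline⟩ : C(QS, PN 1)))
      f.toMap sqf z
    rw [h0, LinearMap.zero_apply] at h1
    have h2 := (HH_map_homeo_bijective ℚ 3 eE').1
    rw [LinearMap.zero_apply]
    apply h2
    rw [map_zero]
    exact h1.symm
  have hell : RationallyElliptic XQ.Pt := hREH _ _ ⟨eX⟩ hSPT.1
  refine ⟨XQ, affQP_isAffine 20 SXX, hIRR, hell, fun T => ?_⟩
  have hpure := T.pure EPQ EPQ_isProjective hEPS 3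
  have hD := hHDN (HQ 3 EPQ.Pt) (HQ 3 DQ.Pt) (T.mhs EPQ 3) (T.mhs DQ 3) (HQ.map 3 f.toMap) 3
    (isMor_of_regMap T f 3) hpure.1 hpure.2 (HQ_ne_zero hCOH 3 f.toMap hfn)
  have hfin : Module.Finite ℚ (HQ 3 XQ.Pt) := hell.2.1.1 3
  have hX := hHDB (HQ 3 XQ.Pt) (HQ 3 DQ.Pt) (T.mhs XQ 3) (T.mhs DQ 3) (HQ.map 3 g.toMap)
    (isMor_of_regMap T g 3) (HQ_bijective hCOH 3 g.toMap hgb)
  have hne : (T.mhs XQ 3).W (3 - 1) ≠ (T.mhs XQ 3).W 3 := by
    intro h
    apply hD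
    rw [← hX (3 - 1), ← hX 3, h]
  obtain ⟨p, q, hpq, hh⟩ := hHDF (HQ 3 XQ.Pt) (T.mhs XQ 3) 3 hne
  exact ⟨p, q, by omega, hh⟩

end Pool.Agent.H64.LB
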