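import Pool.Agent.H64.LB.Final
import Pool.Agent.H93.SP.Targets

/-!
# Final assembly: the symmetric square is rationally elliptic
-/

open Topology Set
open Pool.Agent.H59
open scoped TensorProduct unitInterval ContinuousMap

namespace Pool.Agent.H64.LB

instance : T2Space (VV 3) := inferInstance

/-- `T_SPT` from the other targets. -/
theorem spt_of_targets (hPHAM : T_PHAM) (hSCO : T_SCO) (hSCH : T_SCH) (hSCP : T_SCP)
    (hCOH : T_COH) (hRE : Pool.Agent.H93.SPB.T_RE) : T_SPT := by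
  obtain ⟨e, -⟩ := hPHAM 3
  have hV : SimplyConnectedSpace (VV 3) := hSCH (OO 3) (VV 3) ⟨e.symm⟩ hSCO
  have hS : ∀ N, SimplyConnectedSpace (SP N (VV 3)) := fun N => hSCP (VV 3) N hV
  obtain ⟨h1, h2, h3, h4⟩ := hRE (VV 3) ⟨e⟩ (fun N _ => hS N)
  refine ⟨⟨hS 2, ⟨fun k => ?_, 7, fun k hk => ?_⟩, fun y => ⟨(h4 y).1, 5, (h4 y).2⟩⟩,
    h3 (VV.base 3)⟩
  · haveI := h1 k
    exact HQ_finite hCOH k
  · haveI := h2 k hk
    obtain ⟨φ, -⟩ := hCOH
    refine ⟨fun a b => (φ k _).injective (LinearMap.ext fun z => ?_)⟩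
    rw [Subsingleton.elim z 0, map_zero, map_zero]

end Pool.Agent.H64.LB
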