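import Pool.Agent.H64.LB.OM

/-!
# The module OM, second part
-/

open Topology Set
open Pool.Agent.H59
open scoped TensorProduct unitInterval ContinuousMap

namespace Pool.Agent.H64.LB

theorem fin01 (i : Fin (0 + 1)) : i = 0 := Fin.ext (by have := i.2; omega)

section sph0

variable (T : Type) [TopologicalSpace T]

/-- the point `1` of `Sph 0` -/
def onep : Sph 0 := ⟨fun _ => 1, fun h => one_ne_zero (congrFun h 0)⟩

/-- the point `-1` of `Sph 0` -/
def onem : Sph 0 := ⟨fun _ => -1, fun h => by simpa using congrFun h 0⟩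

/-- the positive part of `Sph 0 × T` -/
def SPo : Set (Sph 0 × T) := {p | 0 < p.1.1 0}

/-- the negative part of `Sph 0 × T` -/
def SNe : Set (Sph 0 × T) := {p | p.1.1 0 < 0}

/-- the half line -/
def hlp : Set (Fin 1 → ℝ) := {x | 0 < x 0}

/-- the half line -/
def hln : Set (Fin 1 → ℝ) := {x | x 0 < 0}

instance : ContractibleSpace hlp := by
  have h : Convex ℝ hlp := by
    intro x hx y hy a b ha hb hab
    simp only [hlp, mem_ofPred_eq, Pi.add_apply, Pi.smul_apply, smul_eq_mul] at hx hy ⊢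
    rcases eq_or_lt_of_le ha with h | h
    · subst h
      rw [zero_add] at hab
      subst hab
      simpa using hy
    · have := mul_pos h hx
      have := mul_nonneg hb hy.le
      linarith
  exact h.contractibleSpace ⟨fun _ => 1, by simp [hlp]⟩

instance : ContractibleSpace hln := by
  have h : Convex ℝ hln := by
    intro x hx y hy a b ha hb hab
    simp only [hln, mem_ofPred_eq, Pi.add_apply, Pi.smul_apply, smul_eq_mul] at hx hy ⊢
    rcases eq_or_lt_of_le ha with h | h
    · subst h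
      rw [zero_add] at hab
      subst hab
      simpa using hy
    · have := mul_neg_of_pos_of_neg h hx
      have := mul_nonpos_of_nonneg_of_nonpos hb hy.le
      linarith
  exact h.contractibleSpace ⟨fun _ => -1, by simp [hln]⟩

/-- the positive part is a product -/
def ePo : hlp × T ≃ₜ ↥(SPo T) where
  toFun p := ⟨(⟨p.1.1, fun h => by
    have h1 : 0 < p.1.1 0 := p.1.2
    rw [h] at h1
    exact lt_irrefl _ h1⟩, p.2), p.1.2⟩
  invFun p := (⟨p.1.1.1, p.2⟩, p.1.2)
  left_inv _ := rfl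
  right_inv _ := rfl
  continuous_toFun := by fun_prop
  continuous_invFun := by fun_prop

/-- the negative part is a product -/
def eNe : hln × T ≃ₜ ↥(SNe T) where
  toFun p := ⟨(⟨p.1.1, fun h => by
    have h1 : p.1.1 0 < 0 := p.1.2
    rw [h] at h1
    exact lt_irrefl _ h1⟩, p.2), p.1.2⟩
  invFun p := (⟨p.1.1.1, p.2⟩, p.1.2)
  left_inv _ := rfl
  right_inv _ := rfl
  continuous_toFun := by fun_prop
  continuous_invFun := by fun_prop

variable {T}

theorem sph0_decomp (hHM : T_HM) (hDU : T_DU) (q : ℕ) (d : HH ℚ q (Sph 0 × T)) :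
    ∃ a b : HH ℚ q T, d = HH.map ℚ q (insE onep) a + HH.map ℚ q (insE onem) b := by
  have c0 : Continuous (fun p : Sph 0 × T => p.1.1 0) :=
    (continuous_apply 0).comp (continuous_subtype_val.comp continuous_fst)
  have hP : IsOpen (SPo T) := isOpen_lt continuous_const c0
  have hN : IsOpen (SNe T) := isOpen_lt c0 continuous_const
  have hcov : SPo T ∪ SNe T = univ := by
    ext p
    simp only [SPo, SNe, mem_union, mem_ofPred_eq, mem_univ, iff_true]
    rcases lt_trichotomy (p.1.1 0) 0 with h | h | h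
    · exact Or.inr h
    · exact absurd (funext fun i => by rw [fin01 i]; exact h) p.1.2
    · exact Or.inl h
  have hdis : SPo T ∩ SNe T = ∅ := by
    ext p
    simp only [SPo, SNe, mem_inter_iff, mem_ofPred_eq, mem_empty_iff_false, iff_false]
    rintro ⟨h1, h2⟩
    exact lt_asymm h1 h2
  obtain ⟨⟨u, v⟩, huv⟩ := (hDU ℚ (Sph 0 × T) (SPo T) (SNe T) hP hN hcov hdis q).2 d
  obtain ⟨u', hu'⟩ := (HH_map_homeo_bijective ℚ q (ePo T)).2 u
  obtain ⟨v', hv'⟩ := (HH_map_homeo_bijective ℚ q (eNe T)).2 v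
  have key1 : u' = HH.map ℚ q (insE (⟨fun _ => 1, by simp [hlp]⟩ : hlp))
      (HH.map ℚ q (ContinuousMap.snd : C(hlp × T, T)) u') := by
    apply (HH_snd_bijective hHM ℚ q hlp T).1
    rw [snd_insE]
  have key2 : v' = HH.map ℚ q (insE (⟨fun _ => -1, by simp [hln]⟩ : hln))
      (HH.map ℚ q (ContinuousMap.snd : C(hln × T, T)) v') := by
    apply (HH_snd_bijective hHM ℚ q hln T).1
    rw [snd_insE]
  refine ⟨HH.map ℚ q (ContinuousMap.snd : C(hlp × T, T)) u',
    HH.map ℚ q (ContinuousMap.snd : C(hln × T, T)) v', ?_⟩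
  rw [← huv]
  simp only
  rw [← hu', ← hv', key1, key2, snd_insE, snd_insE]
  simp only [← HH.map_comp]
  rfl

end sph0

/-- the multiplication `Sph 0 × S2 → Sph 2` -/
def mS : C(Sph 0 × S2, Sph 2) where
  toFun p := ⟨fun i => p.1.1 0 * p.2.1 i, fun h => by
    apply p.2.ne_zero
    funext i
    have h1 := congrFun h i
    simp only [Pi.zero_apply, mul_eq_zero] at h1
    rcases h1 with h1 | h1
    · exact absurd (funext fun j => by rw [fin01 j]; exact h1) p.1.2
    · exact h1⟩
  continuous_toFun := by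
    refine Continuous.subtype_mk ?_ _
    refine continuous_pi (fun i => ?_)
    exact ((continuous_apply 0).comp (continuous_subtype_val.comp continuous_fst)).mul
      ((continuous_apply i).comp (continuous_subtype_val.comp continuous_snd))

theorem mS_onep : mS.comp (insE onep) = S2.toSph := by
  ext x i
  change (1 : ℝ) * x.1 i = x.1 i
  rw [one_mul]

theorem mS_onem : mS.comp (insE onem) = S2.toSph.comp S2.anti := by
  ext x i
  change (-1 : ℝ) * x.1 i = - x.1 i
  rw [neg_one_mul]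

/-- the kernel of the projection maps bijectively to `H_2(Sph 2)` -/
theorem mS_inj (hHM : T_HM) (hDU : T_DU) (hS2H : T_S2H) (hS2E : T_S2E)
    (d : HH ℚ 2 (Sph 0 × S2)) (h : HH.map ℚ 2 (ContinuousMap.snd : C(Sph 0 × S2, S2)) d = 0)
    (h2 : HH.map ℚ 2 mS d = 0) : d = 0 := by
  obtain ⟨a, b, rfl⟩ := sph0_decomp hHM hDU 2 d
  obtain ⟨-, -, -, hanti⟩ := hS2H ℚ
  obtain ⟨e, he⟩ := hS2E
  rw [map_add, snd_insE, snd_insE] at h
  have hb : b = -a := by rw [← sub_eq_zero]; rw [sub_neg_eq_add, add_comm]; exact h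
  subst hb
  rw [map_add, ← HH.map_comp, ← HH.map_comp, mS_onep, mS_onem, HH.map_comp, hanti, neg_neg,
    ← map_add] at h2
  have b1 : Function.Bijective (HH.map ℚ 2 S2.toSph) := by
    rw [← he]
    exact HH_hequiv_bijective hHM ℚ 2 e
  have h3 := b1.1 (h2.trans (map_zero _).symm)
  have h4 : a = 0 := by
    have : (2 : ℚ) • a = 0 := by rw [two_smul]; exact h3
    exact (smul_eq_zero.1 this).resolve_left two_ne_zero
  rw [h4]
  simp

theorem mS_surj (hHM : T_HM) (hS2H : T_S2H) (hS2E : T_S2E) (c : HH ℚ 2 (Sph 2)) :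
    ∃ d : HH ℚ 2 (Sph 0 × S2), HH.map ℚ 2 (ContinuousMap.snd : C(Sph 0 × S2, S2)) d = 0 ∧
      HH.map ℚ 2 mS d = c := by
  obtain ⟨-, -, -, hanti⟩ := hS2H ℚ
  obtain ⟨e, he⟩ := hS2E
  have b1 : Function.Bijective (HH.map ℚ 2 S2.toSph) := by
    rw [← he]
    exact HH_hequiv_bijective hHM ℚ 2 e
  obtain ⟨a, ha⟩ := b1.2 ((1 / 2 : ℚ) • c)
  refine ⟨HH.map ℚ 2 (insE onep) a + HH.map ℚ 2 (insE onem) (-a), ?_, ?_⟩
  · rw [map_add, snd_insE, snd_insE, add_neg_cancel]
  · rw [map_add, ← HH.map_comp, ← HH.map_comp, mS_onep, mS_onem, HH.map_comp, hanti, neg_neg,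
      ha, ← add_smul]
    norm_num

end Pool.Agent.H64.LB
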