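import Pool.Agent.H64.LB.Stmt

/-!
# The concrete spaces

* `SP N Y` : the `N`-fold symmetric product of a space.
* `VV n` : the affine hypersurface `a^3 + z_1^2 + ... + z_n^2 = 1` in `ℂ × ℂ^n`.
* `OO n` : its open model in `ℂ × ℝ^n`.
* `S2`, `BB3` : the unit sphere of `ℝ^3` and the complex quadric `z_1^2+z_2^2+z_3^2 = 1`.
* `EC` : the elliptic curve, projective closure of `VV 1`.
-/

open Topology Set
open Pool.Agent.H59

namespace Pool.Agent.H64.LB

/-! ### Symmetric products -/

/-- `N`-tuples up to permutation -/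
instance spSetoid (N : ℕ) (Y : Type) : Setoid (Fin N → Y) where
  r y y' := ∃ σ : Equiv.Perm (Fin N), y' = y ∘ σ
  iseqv :=
    { refl := fun y => ⟨1, rfl⟩
      symm := by
        rintro y y' ⟨σ, rfl⟩
        exact ⟨σ⁻¹, by funext i; simp⟩
      trans := by
        rintro y y' y'' ⟨σ, rfl⟩ ⟨τ, rfl⟩
        exact ⟨σ * τ, by funext i; simp⟩ }

/-- The `N`-fold symmetric product `Y^N / S_N`, with the quotient topology. -/
def SP (N : ℕ) (Y : Type) : Type := Quotient (spSetoid N Y)

instance (N : ℕ) (Y : Type) [TopologicalSpace Y] : TopologicalSpace (SP N Y) :=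
  inferInstanceAs (TopologicalSpace (Quotient _))

/-- the unordered tuple of an ordered tuple -/
def SP.mk {N : ℕ} {Y : Type} (y : Fin N → Y) : SP N Y := Quotient.mk (spSetoid N Y) y

theorem SP.continuous_mk {N : ℕ} {Y : Type} [TopologicalSpace Y] :
    Continuous (SP.mk : (Fin N → Y) → SP N Y) := continuous_quotient_mk'

/-- the map `y ↦ {y, y₀}` -/
def SP.inc {Y : Type} [TopologicalSpace Y] (y₀ : Y) : C(Y, SP 2 Y) where
  toFun y := SP.mk ![y, y₀]
  continuous_toFun := SP.continuous_mk.comp (by fun_prop)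

/-! ### Hypersurfaces and their models -/

/-- The affine hypersurface `a^3 + z_1^2 + ... + z_n^2 = 1` in `ℂ × ℂ^n`. -/
abbrev VV (n : ℕ) : Type := {p : ℂ × (Fin n → ℂ) // p.1 ^ 3 + ∑ i, p.2 i ^ 2 = 1}

/-- The open set `(ℂ × ℝ^n) ∖ (T × 0)`, `T` = the union of the three rays `a^3 ∈ (-∞, 0]`. -/
abbrev OO (n : ℕ) : Type :=
  {p : ℂ × (Fin n → ℝ) // ¬ (p.2 = 0 ∧ ∃ t : ℝ, t ≤ 0 ∧ p.1 ^ 3 = (t : ℂ))}

/-- the unit sphere of `ℝ^3` -/
abbrev S2 : Type := {x : Fin 3 → ℝ // ∑ i, x i ^ 2 = 1}

/-- the affine quadric surface `z_1^2 + z_2^2 + z_3^2 = 1` -/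
abbrev QS : Type := {z : Fin 3 → ℂ // ∑ i, z i ^ 2 = 1}

/-- the base point `(1, 0)` of `VV n` -/
def VV.base (n : ℕ) : VV n := ⟨(1, 0), by simp⟩

/-- the real part map `VV n → OO n`, `(a, z) ↦ (a, Re z)` -/
def VV.re (n : ℕ) : C(VV n, OO n) where
  toFun p := ⟨(p.1.1, fun i => (p.1.2 i).re), by
    rintro ⟨h0, t, ht, h3⟩
    have h := congrArg Complex.re p.2
    have h4 : ∀ i, (p.1.2 i).re = 0 := fun i => congrFun h0 i
    rw [h3] at h
    simp only [Complex.add_re, Complex.ofReal_re, Complex.re_sum, Complex.one_re, sq,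
      Complex.mul_re, h4] at h
    have h5 : ∑ i, (0 * 0 - (p.1.2 i).im * (p.1.2 i).im) ≤ 0 :=
      Finset.sum_nonpos (fun i _ => by nlinarith [mul_self_nonneg (p.1.2 i).im])
    linarith⟩
  continuous_toFun := by
    refine Continuous.subtype_mk ?_ _
    refine (continuous_fst.comp continuous_subtype_val).prodMk ?_
    exact continuous_pi (fun i => Complex.continuous_re.comp
      ((continuous_apply i).comp (continuous_snd.comp continuous_subtype_val)))

/-- the inclusion of the real sphere in the quadric -/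
def S2.toQS : C(S2, QS) where
  toFun x := ⟨fun i => (x.1 i : ℂ), by
    have h := x.2
    have h2 : ((∑ i, x.1 i ^ 2 : ℝ) : ℂ) = 1 := by rw [h]; norm_num
    push_cast at h2
    exact h2⟩
  continuous_toFun := by
    refine Continuous.subtype_mk ?_ _
    exact continuous_pi (fun i => Complex.continuous_ofReal.comp
      ((continuous_apply i).comp continuous_subtype_val))

/-- the morphism `VV 1 × QS → VV 3`, `((a, b), z) ↦ (a, b z)` -/
def mulV : C(VV 1 × QS, VV 3) where
  toFun p := ⟨(p.1.1.1, fun i => p.1.1.2 0 * p.2.1 i), by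
    have h1 := p.1.2
    have h2 := p.2.2
    simp only [Finset.univ_unique, Fin.default_eq_zero, Finset.sum_singleton] at h1
    simp only [mul_pow, ← Finset.mul_sum, h2, mul_one]
    exact h1⟩
  continuous_toFun := by
    refine Continuous.subtype_mk ?_ _
    refine Continuous.prodMk (by fun_prop) ?_
    refine continuous_pi (fun i => ?_)
    exact ((continuous_apply 0).comp (continuous_snd.comp (continuous_subtype_val.comp
      continuous_fst))).mul ((continuous_apply i).comp (continuous_subtype_val.comp continuous_snd))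

/-- the corresponding map of the models, `((a, b), x) ↦ (a, b x)` -/
def mulO : C(OO 1 × S2, OO 3) where
  toFun p := ⟨(p.1.1.1, fun i => p.1.1.2 0 * p.2.1 i), by
    rintro ⟨h0, h3⟩
    refine p.1.2 ⟨?_, h3⟩
    funext j
    have hj : j = 0 := Subsingleton.elim _ _
    subst hj
    by_contra hne
    have h1 : ∀ i, p.2.1 i = 0 := fun i => by
      have := congrFun h0 i
      simp only [Pi.zero_apply, mul_eq_zero] at this
      rcases this with h | h
      · exact absurd h hne
      · exact h
    have h2 := p.2.2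
    simp [h1] at h2⟩
  continuous_toFun := by
    refine Continuous.subtype_mk ?_ _
    refine Continuous.prodMk (by fun_prop) ?_
    refine continuous_pi (fun i => ?_)
    exact ((continuous_apply 0).comp (continuous_snd.comp (continuous_subtype_val.comp
      continuous_fst))).mul ((continuous_apply i).comp (continuous_subtype_val.comp continuous_snd))

/-! ### The elliptic curve and the projective line -/

/-- the affine point `[x : 1]`, last homogeneous coordinate `1` -/
def affPt {n : ℕ} (x : Fin n → ℂ) : PN n :=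
  pt ⟨Fin.snoc x 1, by
    intro h
    have := congrFun h (Fin.last n)
    simp at this⟩

/-- The elliptic curve `x_0^3 + x_1^2 x_2 = x_2^3` in `PN 2`. -/
abbrev EC : Type := {x : PN 2 // ∀ v : NZ 2, pt v = x → v.1 0 ^ 3 + v.1 1 ^ 2 * v.1 2 = v.1 2 ^ 3}

/-- the inclusion `(a, b) ↦ [a : b : 1]` of `VV 1` in `EC` -/
def VV.toECfun (p : VV 1) : EC :=
  ⟨pt ⟨![p.1.1, p.1.2 0, 1], by
    intro h
    have := congrFun h 2
    simp at this⟩, by
    rintro v hv
    obtain ⟨c, hc, h⟩ := Quotient.exact hv
    have hp := p.2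
    simp only [Finset.univ_unique, Fin.default_eq_zero, Finset.sum_singleton] at hp
    have h0 := congrFun h 0
    have h1 := congrFun h 1
    have h2 := congrFun h 2
    simp at h0 h1 h2
    have e0 : v.1 0 = c⁻¹ * p.1.1 := by rw [h0]; field_simp
    have e1 : v.1 1 = c⁻¹ * p.1.2 0 := by rw [h1]; field_simp
    have e2 : v.1 2 = c⁻¹ := by field_simp; rw [mul_comm]; exact h2.symm
    rw [e0, e1, e2]
    linear_combination (c⁻¹) ^ 3 * hp⟩

theorem continuous_pt {n : ℕ} : Continuous (pt : NZ n → PN n) := continuous_quotient_mk'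

/-- the inclusion `(a, b) ↦ [a : b : 1]` of `VV 1` in `EC`, as a continuous map -/
def VV.toEC : C(VV 1, EC) where
  toFun := VV.toECfun
  continuous_toFun := by
    refine Continuous.subtype_mk ?_ _
    refine continuous_pt.comp (Continuous.subtype_mk ?_ _)
    refine continuous_pi (fun i => ?_)
    fin_cases i
    · exact continuous_fst.comp continuous_subtype_val
    · exact (continuous_apply 0).comp (continuous_snd.comp continuous_subtype_val)
    · exact continuous_const

/-- the eigenline map `QS → PN 1`, `z ↦ [z_3 + 1 : z_1 - i z_2] = [z_1 + i z_2 : 1 - z_3]` -/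
noncomputable def QS.line (z : QS) : PN 1 := by
  classical
  exact if h : z.1 2 + 1 ≠ 0 then
    pt ⟨![z.1 2 + 1, z.1 0 - Complex.I * z.1 1], by
      intro h'
      exact h (congrFun h' 0)⟩
  else
    pt ⟨![z.1 0 + Complex.I * z.1 1, 1 - z.1 2], by
      intro h'
      have h1 : 1 - z.1 2 = 0 := congrFun h' 1
      rw [not_not] at h
      have : (2 : ℂ) = 0 := by linear_combination h + h1
      norm_num at this⟩

end Pool.Agent.H64.LB
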