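import Pool.Agent.H64.LB.Hom

/-!
# Statement of the counterexample to Libgober's question (MP_2059f1_ag)

* `PN n` : complex projective space with its analytic topology.
* `QP` : quasi-projective complex varieties (locally closed algebraic subsets of some `PN n`).
* `RegMap X Y` : regular maps (morphisms).
* `HQ k Y` : singular cohomology `H^k(Y; ℚ)`.
* `MHS H` : mixed Hodge structures on the rational vector space `H`, `MHS.h p q` the Hodge numbers.
* `HodgeTheory` : functorial mixed Hodge structures on the cohomology of all quasi-projective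
  varieties which are pure of weight `k` on `H^k` of smooth projective varieties (two of the basic
  properties of Deligne's mixed Hodge structures).
* `RationallyElliptic` : rationally elliptic spaces.
-/

open Topology Set
open Pool.Agent.H59
open scoped TensorProduct

namespace Pool.Agent.H64.LB

/-! ### Projective space -/

/-- nonzero vectors of `ℂ^(n+1)` -/
abbrev NZ (n : ℕ) : Type := {v : Fin (n + 1) → ℂ // v ≠ 0}

/-- proportionality of nonzero vectors -/
instance projSetoid (n : ℕ) : Setoid (NZ n) where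
  r v w := ∃ c : ℂ, c ≠ 0 ∧ w.1 = c • v.1
  iseqv :=
    { refl := fun v => ⟨1, one_ne_zero, by simp⟩
      symm := by
        rintro v w ⟨c, hc, h⟩
        exact ⟨c⁻¹, inv_ne_zero hc, by rw [h, smul_smul, inv_mul_cancel₀ hc, one_smul]⟩
      trans := by
        rintro u v w ⟨c, hc, h⟩ ⟨d, hd, h'⟩
        exact ⟨d * c, mul_ne_zero hd hc, by rw [h', h, smul_smul]⟩ }

/-- Complex projective `n`-space, with the analytic topology. -/
def PN (n : ℕ) : Type := Quotient (projSetoid n)

instance (n : ℕ) : TopologicalSpace (PN n) := inferInstanceAs (TopologicalSpace (Quotient _))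

/-- the point `[v]` of projective space -/
def pt {n : ℕ} (v : NZ n) : PN n := Quotient.mk (projSetoid n) v

/-- polynomials in the homogeneous coordinates of `PN n` -/
abbrev Pol (n : ℕ) : Type := MvPolynomial (Fin (n + 1)) ℂ

/-- `f` is homogeneous (of some degree) -/
def Homog {n : ℕ} (f : Pol n) : Prop := ∃ d : ℕ, f.IsHomogeneous d

/-- the homogeneous polynomial `f` vanishes at the point `x` -/
def Van {n : ℕ} (f : Pol n) (x : PN n) : Prop :=
  ∀ v : NZ n, pt v = x → MvPolynomial.eval v.1 f = 0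

/-- A quasi-projective complex variety: a subset of projective space defined by finitely many
homogeneous equations `f = 0`, `f ∈ S`, and the condition that not all `g ∈ T` vanish.
(Irreducibility is not required.) -/
structure QP where
  /-- dimension of the ambient projective space -/
  N : ℕ
  /-- the set of points -/
  carrier : Set (PN N)
  locClosed : ∃ S T : Finset (Pol N), (∀ f ∈ S, Homog f) ∧ (∀ g ∈ T, Homog g) ∧
    carrier = {x | (∀ f ∈ S, Van f x) ∧ ∃ g ∈ T, ¬ Van g x}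

/-- the points of a quasi-projective variety, with the analytic topology -/
abbrev QP.Pt (X : QP) : Type := X.carrier

/-- a morphism of quasi-projective varieties: a (continuous) map which is given, Zariski locally,
by homogeneous polynomials of the same degree -/
structure RegMap (X Y : QP) where
  toMap : C(X.Pt, Y.Pt)
  regular : ∀ v₀ : NZ X.N, pt v₀ ∈ X.carrier →
    ∃ (d : ℕ) (F : Fin (Y.N + 1) → Pol X.N) (g : Pol X.N),
      (∀ i, (F i).IsHomogeneous d) ∧ Homog g ∧ MvPolynomial.eval v₀.1 g ≠ 0 ∧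
      ∀ (v : NZ X.N) (hv : pt v ∈ X.carrier), MvPolynomial.eval v.1 g ≠ 0 →
        ∃ h : (fun i => MvPolynomial.eval v.1 (F i)) ≠ 0,
          (toMap ⟨pt v, hv⟩ : PN Y.N) = pt ⟨fun i => MvPolynomial.eval v.1 (F i), h⟩

/-- projective varieties: closed algebraic subsets of projective space -/
def QP.IsProjective (X : QP) : Prop :=
  ∃ S : Finset (Pol X.N), (∀ f ∈ S, Homog f) ∧ X.carrier = {x | ∀ f ∈ S, Van f x}

/-- smooth varieties (Jacobian criterion): near every point `X` is the set of common zeros of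
homogeneous polynomials with linearly independent differentials -/
def QP.IsSmooth (X : QP) : Prop :=
  ∀ v₀ : NZ X.N, pt v₀ ∈ X.carrier →
    ∃ (c : ℕ) (f : Fin c → Pol X.N) (g : Pol X.N),
      (∀ i, Homog (f i)) ∧ Homog g ∧ MvPolynomial.eval v₀.1 g ≠ 0 ∧
      (∀ v : NZ X.N, MvPolynomial.eval v.1 g ≠ 0 →
        (pt v ∈ X.carrier ↔ ∀ i, MvPolynomial.eval v.1 (f i) = 0)) ∧
      LinearIndependent ℂ
        (fun (i : Fin c) (j : Fin (X.N + 1)) => MvPolynomial.eval v₀.1 (MvPolynomial.pderiv j (f i)))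

/-- irreducible varieties -/
def QP.IsIrreducible (X : QP) : Prop :=
  X.carrier.Nonempty ∧ ∀ f g : Pol X.N, Homog f → Homog g →
    (∀ x ∈ X.carrier, Van f x ∨ Van g x) →
      (∀ x ∈ X.carrier, Van f x) ∨ (∀ x ∈ X.carrier, Van g x)

/-- `X` is affine: it is the set of points `[1 : x]` where `x` runs through the common zeros in
`ℂ^N` of finitely many polynomials. -/
def QP.IsAffine (X : QP) : Prop :=
  ∃ S : Finset (MvPolynomial (Fin X.N) ℂ),
    X.carrier = {y | ∃ (x : Fin X.N → ℂ) (h : (Fin.cons 1 x : Fin (X.N + 1) → ℂ) ≠ 0),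
      (∀ f ∈ S, MvPolynomial.eval x f = 0) ∧ y = pt ⟨Fin.cons 1 x, h⟩}

/-! ### Singular cohomology -/

/-- The coboundary `(δφ)(σ) = ∑ (-1)^i φ(∂_i σ)` of a rational cochain on the singular simplices
with `n` vertices. -/
noncomputable def cobd (n : ℕ) (Y : Type) [TopologicalSpace Y] :
    (Smp n Y → ℚ) →ₗ[ℚ] (Smp (n + 1) Y → ℚ) where
  toFun φ σ := ∑ i : Fin (n + 1), (-1 : ℚ) ^ (i : ℕ) * φ (fc σ i)
  map_add' φ ψ := by
    funext σ
    simp only [Pi.add_apply, mul_add, Finset.sum_add_distrib]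
  map_smul' c φ := by
    funext σ
    simp only [Pi.smul_apply, smul_eq_mul, RingHom.id_apply, Finset.mul_sum]
    exact Finset.sum_congr rfl (fun i _ => by ring)

/-- singular cocycles of degree `k` -/
noncomputable def ZQ (k : ℕ) (Y : Type) [TopologicalSpace Y] : Submodule ℚ (Smp (k + 1) Y → ℚ) :=
  LinearMap.ker (cobd (k + 1) Y)

/-- singular coboundaries of degree `k` (zero if `k = 0`) -/
noncomputable def BQ : (k : ℕ) → (Y : Type) → [TopologicalSpace Y] →
    Submodule ℚ (Smp (k + 1) Y → ℚ)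
  | 0, _, _ => ⊥
  | (k + 1), Y, _ => LinearMap.range (cobd (k + 1) Y)

/-- Singular cohomology `H^k(Y; ℚ)`. -/
def HQ (k : ℕ) (Y : Type) [TopologicalSpace Y] : Type :=
  ZQ k Y ⧸ (BQ k Y).submoduleOf (ZQ k Y)

noncomputable instance (k : ℕ) (Y : Type) [TopologicalSpace Y] : AddCommGroup (HQ k Y) :=
  inferInstanceAs (AddCommGroup (ZQ k Y ⧸ (BQ k Y).submoduleOf (ZQ k Y)))

noncomputable instance (k : ℕ) (Y : Type) [TopologicalSpace Y] : Module ℚ (HQ k Y) :=
  inferInstanceAs (Module ℚ (ZQ k Y ⧸ (BQ k Y).submoduleOf (ZQ k Y)))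

section

variable {Y Y' : Type} [TopologicalSpace Y] [TopologicalSpace Y']

/-- pull-back of cochains -/
def pbQ (n : ℕ) (f : C(Y, Y')) : (Smp n Y' → ℚ) →ₗ[ℚ] (Smp n Y → ℚ) where
  toFun φ σ := φ (f.comp σ)
  map_add' _ _ := rfl
  map_smul' _ _ := rfl

theorem cobd_pbQ (n : ℕ) (f : C(Y, Y')) (φ : Smp n Y' → ℚ) :
    cobd n Y (pbQ n f φ) = pbQ (n + 1) f (cobd n Y' φ) := rfl

theorem pbQ_mem_ZQ (k : ℕ) (f : C(Y, Y')) {φ : Smp (k + 1) Y' → ℚ} (h : φ ∈ ZQ k Y') :
    pbQ (k + 1) f φ ∈ ZQ k Y := by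
  change cobd (k + 1) Y (pbQ (k + 1) f φ) = 0
  have h' : cobd (k + 1) Y' φ = 0 := h
  rw [cobd_pbQ, h', map_zero]

theorem pbQ_mem_BQ (k : ℕ) (f : C(Y, Y')) {φ : Smp (k + 1) Y' → ℚ} (h : φ ∈ BQ k Y') :
    pbQ (k + 1) f φ ∈ BQ k Y := by
  cases k with
  | zero =>
    have h' : φ = 0 := h
    rw [h', map_zero]
    exact Submodule.zero_mem _
  | succ k =>
    obtain ⟨ψ, rfl⟩ := h
    exact ⟨pbQ (k + 1) f ψ, cobd_pbQ _ _ _⟩

/-- The pull-back `f^* : H^k(Y'; ℚ) → H^k(Y; ℚ)`. -/
noncomputable def HQ.map (k : ℕ) (f : C(Y, Y')) : HQ k Y' →ₗ[ℚ] HQ k Y :=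
  Submodule.mapQ _ _ ((pbQ (k + 1) f).restrict (fun _ h => pbQ_mem_ZQ k f h))
    (fun _ h => pbQ_mem_BQ k f h)

end

/-! ### Mixed Hodge structures -/

section MHS

variable {H : Type} [AddCommGroup H] [Module ℚ H]

variable (H) in
/-- complex conjugation on `ℂ ⊗ H` -/
noncomputable def cj : (ℂ ⊗[ℚ] H) →ₛₗ[starRingEnd ℂ] (ℂ ⊗[ℚ] H) where
  toFun := TensorProduct.map (Complex.conjAe.toAlgHom.toLinearMap.restrictScalars ℚ)
    (LinearMap.id : H →ₗ[ℚ] H)
  map_add' x y := map_add _ x y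
  map_smul' c x := by
    induction x using TensorProduct.induction_on with
    | zero => simp
    | tmul z h => simp [TensorProduct.smul_tmul', TensorProduct.map_tmul]
    | add x y hx hy => rw [smul_add, map_add, hx, hy, map_add, smul_add]

/-- the image of a complex subspace under complex conjugation -/
noncomputable def conjSub (V : Submodule ℂ (ℂ ⊗[ℚ] H)) : Submodule ℂ (ℂ ⊗[ℚ] H) :=
  V.map (cj H)

variable (H) in
/-- A mixed Hodge structure on the rational vector space `H`: an increasing filtration `W` of `H`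
and a decreasing filtration `F` of `ℂ ⊗ H`, both finite, such that `F` induces on
`ℂ ⊗ Gr^W_k` a Hodge structure of weight `k`, i.e. `Gr^W_k = F^p ⊕ conj (F^(k+1-p))` for all `p`. -/
structure MHS where
  /-- the weight filtration -/
  W : ℤ → Submodule ℚ H
  /-- the Hodge filtration -/
  F : ℤ → Submodule ℂ (ℂ ⊗[ℚ] H)
  W_mono : Monotone W
  F_anti : Antitone F
  W_bot : ∃ a, W a = ⊥
  W_top : ∃ b, W b = ⊤
  F_top : ∃ a, F a = ⊤
  F_bot : ∃ b, F b = ⊥
  sup_eq : ∀ k p : ℤ,
    ((F p ⊓ (W k).baseChange ℂ) ⊔ (W (k - 1)).baseChange ℂ) ⊔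
      conjSub ((F (k + 1 - p) ⊓ (W k).baseChange ℂ) ⊔ (W (k - 1)).baseChange ℂ) =
    (W k).baseChange ℂ
  inf_eq : ∀ k p : ℤ,
    ((F p ⊓ (W k).baseChange ℂ) ⊔ (W (k - 1)).baseChange ℂ) ⊓
      conjSub ((F (k + 1 - p) ⊓ (W k).baseChange ℂ) ⊔ (W (k - 1)).baseChange ℂ) =
    (W (k - 1)).baseChange ℂ

namespace MHS

variable (M : MHS H)

/-- the preimage in `W_k` of `F^p Gr^W_k` (with complex coefficients) -/
noncomputable def FW (k p : ℤ) : Submodule ℂ (ℂ ⊗[ℚ] H) :=
  (M.F p ⊓ (M.W k).baseChange ℂ) ⊔ (M.W (k - 1)).baseChange ℂ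

/-- The Hodge number `h^{p,q} = dim Gr_F^p Gr^W_{p+q}`. -/
noncomputable def h (p q : ℤ) : ℕ :=
  Module.finrank ℂ (M.FW (p + q) p ⧸ (M.FW (p + q) (p + 1)).submoduleOf (M.FW (p + q) p))

end MHS

end MHS

/-- A functorial theory of mixed Hodge structures on the rational cohomology of quasi-projective
complex varieties which is pure on smooth projective varieties. By Deligne (Théorie de Hodge II,
III) the canonical mixed Hodge structures form such a theory. -/
structure HodgeTheory where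
  /-- the mixed Hodge structure on `H^k(X; ℚ)` -/
  mhs : ∀ (X : QP) (k : ℕ), MHS (HQ k X.Pt)
  map_W : ∀ {X Y : QP} (f : RegMap X Y) (k : ℕ) (j : ℤ),
    ∀ z ∈ (mhs Y k).W j, HQ.map k f.toMap z ∈ (mhs X k).W j
  map_F : ∀ {X Y : QP} (f : RegMap X Y) (k : ℕ) (p : ℤ),
    ∀ z ∈ (mhs Y k).F p, (HQ.map k f.toMap).baseChange ℂ z ∈ (mhs X k).F p
  pure : ∀ X : QP, X.IsProjective → X.IsSmooth → ∀ k : ℕ,
    (mhs X k).W (k - 1) = ⊥ ∧ (mhs X k).W k = ⊤

/-- The mixed Hodge numbers `h^{k,p,q}(X)` in the theory `T`. -/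
noncomputable def HodgeTheory.h (T : HodgeTheory) (X : QP) (k : ℕ) (p q : ℤ) : ℕ :=
  (T.mhs X k).h p q

/-! ### Rational ellipticity -/

/-- `Y` is rationally elliptic: simply connected, with finite dimensional total rational cohomology
and finite dimensional total rational homotopy. -/
def RationallyElliptic (Y : Type) [TopologicalSpace Y] : Prop :=
  SimplyConnectedSpace Y ∧
  ((∀ k : ℕ, Module.Finite ℚ (HQ k Y)) ∧ ∃ K : ℕ, ∀ k ≥ K, Subsingleton (HQ k Y)) ∧
  ∀ y : Y,
    (∀ k : ℕ, Module.Finite ℚ (ℚ ⊗[ℤ] Additive (HomotopyGroup.Pi (k + 2) Y y))) ∧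
    ∃ K : ℕ, ∀ k ≥ K, Subsingleton (ℚ ⊗[ℤ] Additive (HomotopyGroup.Pi (k + 2) Y y))

/-- The final theorem: there is an irreducible affine complex variety `X` which is rationally
elliptic and has, for every theory of mixed Hodge structures as above, a nonzero mixed Hodge number
`h^{3,p,q}(X)` with `p ≠ q`. -/
def Goal : Prop :=
  ∃ X : QP, X.IsAffine ∧ X.IsIrreducible ∧ RationallyElliptic X.Pt ∧
    ∀ T : HodgeTheory, ∃ p q : ℤ, p ≠ q ∧ T.h X 3 p q ≠ 0

end Pool.Agent.H64.LB
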